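import Mathlib

/-! The discriminant and the conjugates of an integral generator, with the Mahler measure. -/

set_option autoImplicit false

namespace Pool.Agent.H37EU

open NumberField Finset IntermediateField
open scoped Classical nonZeroDivisors

variable {K : Type} [Field K] [NumberField K]

theorem two_mul_max (a b : ℂ) : ‖a - b‖ ≤ 2 * (max 1 ‖a‖ * max 1 ‖b‖) := by
  have h1 := norm_sub_le a b
  have h2 : 1 ≤ max 1 ‖a‖ := le_max_left _ _
  have h3 : 1 ≤ max 1 ‖b‖ := le_max_left _ _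
  have h4 : ‖a‖ ≤ max 1 ‖a‖ := le_max_right _ _
  have h5 : ‖b‖ ≤ max 1 ‖b‖ := le_max_right _ _
  nlinarith [mul_nonneg (sub_nonneg.2 h2) (sub_nonneg.2 h3)]

theorem sum_Ioi (d : ℕ) (c : ℝ) (f : Fin d → ℝ) :
    ∑ i : Fin d, ∑ j ∈ Finset.Ioi i, 2 * (c + (f j + f i)) =
      (d * (d - 1) : ℝ) * c + 2 * ((d : ℝ) - 1) * ∑ i, f i := by
  have h1 : ∑ i : Fin d, ∑ j ∈ Finset.Ioi i, (f j + f i) = ((d : ℝ) - 1) * ∑ i, f i := by
    have h2 : ∑ i : Fin d, ∑ j ∈ Finset.Ioi i, (f j + f i) =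
        ∑ i : Fin d, ∑ j ∈ Finset.Ioi i, f j + ∑ i : Fin d, ∑ j ∈ Finset.Ioi i, f i := by
      rw [← Finset.sum_add_distrib]
      exact Finset.sum_congr rfl fun i _ => Finset.sum_add_distrib
    have h3 : ∑ i : Fin d, ∑ j ∈ Finset.Ioi i, f j = ∑ j : Fin d, ∑ i ∈ Finset.Iio j, f j := by
      refine Finset.sum_comm' ?_
      intro x y
      simp
    rw [h2, h3, ← Finset.sum_add_distrib, Finset.mul_sum]
    refine Finset.sum_congr rfl fun i _ => ?_
    rw [Finset.sum_const, Finset.sum_const, Fin.card_Iio, Fin.card_Ioi, ← add_smul]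
    have h4 : (i : ℕ) + (d - 1 - (i : ℕ)) = d - 1 := by
      have := i.2
      omega
    rw [h4, nsmul_eq_mul]
    congr 1
    have h5 : 1 ≤ d := by
      have := i.2
      omega
    push_cast [Nat.cast_sub h5]
    ring
  have h6 : ∑ i : Fin d, ∑ j ∈ Finset.Ioi i, 2 * (c + (f j + f i)) =
      (∑ i : Fin d, (Finset.Ioi i).card : ℕ) * (2 * c) +
        2 * ∑ i : Fin d, ∑ j ∈ Finset.Ioi i, (f j + f i) := by
    rw [Nat.cast_sum, Finset.sum_mul, Finset.mul_sum, ← Finset.sum_add_distrib]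
    refine Finset.sum_congr rfl fun i _ => ?_
    rw [Finset.mul_sum, ← nsmul_eq_mul, ← Finset.sum_const, ← Finset.sum_add_distrib]
    refine Finset.sum_congr rfl fun j _ => ?_
    ring
  have h7 : ((∑ i : Fin d, (Finset.Ioi i).card : ℕ) : ℝ) * 2 = d * (d - 1) := by
    have h8 : (∑ i : Fin d, (Finset.Ioi i).card) * 2 = d * (d - 1) := by
      have h1 : ∀ i : Fin d, (Finset.Ioi i).card = d - 1 - i := fun i => Fin.card_Ioi i
      simp only [h1]
      rw [Fin.sum_univ_eq_sum_range (fun i => d - 1 - i) d,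
        Finset.sum_range_reflect (fun i => i) d, Finset.sum_range_id_mul_two]
    rcases Nat.eq_zero_or_pos d with h | h
    · subst h
      simp
    · have h9 : ((d - 1 : ℕ) : ℝ) = (d : ℝ) - 1 := by
        push_cast [Nat.cast_sub h]
        ring
      rw [← h9]
      exact_mod_cast h8
  rw [h6, h1]
  linear_combination c * h7

theorem log_discr_le {n : ℕ} (hn : Module.finrank ℚ K = n) (z : 𝓞 K) (hz : ℚ⟮(z : K)⟯ = ⊤) :
    Real.log |(discr K : ℝ)| ≤ (n * (n - 1) : ℝ) * Real.log 2 +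
      2 * ((n : ℝ) - 1) * ∑ w : InfinitePlace K, (w.mult : ℝ) * Real.log (max 1 (w (z : K))) := by
  have hint : IsIntegral ℚ (z : K) := Algebra.IsIntegral.isIntegral _
  have htop : Algebra.adjoin ℚ {(z : K)} = ⊤ := by
    rw [← IntermediateField.adjoin_simple_toSubalgebra_of_isAlgebraic hint.isAlgebraic, hz]
    rfl
  let pb : PowerBasis ℚ K := PowerBasis.ofAdjoinEqTop' hint htop
  have hgen : pb.gen = z := PowerBasis.ofAdjoinEqTop'_gen hint htop
  have hdim : pb.dim = n := by rw [← pb.finrank, hn]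
  -- the integer matrix
  have hc : Fintype.card (Module.Free.ChooseBasisIndex ℤ (𝓞 K)) = pb.dim := by
    rw [← Module.finrank_eq_card_basis (RingOfIntegers.basis K), RingOfIntegers.rank, pb.finrank]
  let e : Module.Free.ChooseBasisIndex ℤ (𝓞 K) ≃ Fin pb.dim := Fintype.equivFinOfCardEq hc
  let b : Module.Basis (Fin pb.dim) ℚ K := (integralBasis K).reindex e
  let M : Matrix (Fin pb.dim) (Fin pb.dim) ℤ := fun i j =>
    (RingOfIntegers.basis K).repr (z ^ (j : ℕ)) (e.symm i)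
  have hM : b.toMatrix pb.basis = M.map (Int.castRingHom ℚ) := by
    ext i j
    rw [Module.Basis.toMatrix_apply, pb.coe_basis, hgen, Matrix.map_apply]
    change ((integralBasis K).reindex e).repr ((z : K) ^ (j : ℕ)) i = _
    rw [Module.Basis.repr_reindex_apply]
    have h1 := integralBasis_repr_apply K (z ^ (j : ℕ)) (e.symm i)
    rw [map_pow] at h1
    exact h1
  have h1 : Algebra.discr ℚ pb.basis = (M.det : ℚ) ^ 2 * (discr K : ℚ) := by
    have h2 := Algebra.discr_of_matrix_vecMul (A := ℚ) (b : Fin pb.dim → K)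
      (b.toMatrix pb.basis)
    rw [Module.Basis.toMatrix_map_vecMul] at h2
    rw [h2, hM]
    have h3 : (M.map (Int.castRingHom ℚ)).det = (M.det : ℚ) := by
      have := (RingHom.map_det (Int.castRingHom ℚ) M)
      rw [RingHom.mapMatrix_apply] at this
      rw [← this]
      rfl
    have h4 : Algebra.discr ℚ (b : Fin pb.dim → K) = (discr K : ℚ) := by
      rw [coe_discr]
      have := Algebra.discr_reindex ℚ (integralBasis K) e
      rw [← this]
      congr 1
      exact Module.Basis.coe_reindex _ _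
    rw [h3, h4]
  have hne : M.det ≠ 0 := by
    intro h0
    have h2 := Algebra.discr_not_zero_of_basis ℚ pb.basis
    rw [h1, h0] at h2
    simp at h2
  generalize M.det = m at h1 hne
  have h2 : |(discr K : ℝ)| ≤ ‖algebraMap ℚ ℂ (Algebra.discr ℚ pb.basis)‖ := by
    have h3 : ‖algebraMap ℚ ℂ (Algebra.discr ℚ pb.basis)‖ =
        |(m : ℝ)| ^ 2 * |(discr K : ℝ)| := by
      rw [h1]
      have e1 : algebraMap ℚ ℂ ((m : ℚ) ^ 2 * (discr K : ℚ)) =
          (((m : ℝ) ^ 2 * (discr K : ℝ) : ℝ) : ℂ) := by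
        rw [eq_ratCast]
        push_cast
        rfl
      rw [e1, Complex.norm_real, Real.norm_eq_abs, abs_mul, abs_pow]
    rw [h3]
    have h4 : 1 ≤ |(m : ℝ)| ^ 2 := by
      have : (1 : ℝ) ≤ |(m : ℝ)| := by exact_mod_cast Int.one_le_abs hne
      nlinarith
    have h5 := abs_nonneg (discr K : ℝ)
    nlinarith
  have hcard : Fintype.card (K →ₐ[ℚ] ℂ) = pb.dim := by
    rw [AlgHom.card, pb.finrank]
  let f : Fin pb.dim ≃ (K →ₐ[ℚ] ℂ) := (Fintype.equivFinOfCardEq hcard).symm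
  have hdpos : 0 < |(discr K : ℝ)| := abs_pos.2 (by exact_mod_cast discr_ne_zero K)
  set μ : Fin pb.dim → ℝ := fun i => max 1 ‖f i pb.gen‖ with hμ
  have hμ1 : ∀ i, 1 ≤ μ i := fun i => le_max_left _ _
  have hμ0 : ∀ i, μ i ≠ 0 := fun i => (lt_of_lt_of_le one_pos (hμ1 i)).ne'
  have h3 : |(discr K : ℝ)| ≤ ∏ i : Fin pb.dim, ∏ j ∈ Finset.Ioi i, (2 * (μ j * μ i)) ^ 2 := by
    refine h2.trans ?_
    rw [Algebra.discr_powerBasis_eq_prod ℚ ℂ pb f, norm_prod]
    refine Finset.prod_le_prod (fun i _ => norm_nonneg _) fun i _ => ?_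
    rw [norm_prod]
    refine Finset.prod_le_prod (fun j _ => norm_nonneg _) fun j _ => ?_
    rw [norm_pow]
    exact pow_le_pow_left₀ (norm_nonneg _) (two_mul_max _ _) 2
  have h4 : Real.log (∏ i : Fin pb.dim, ∏ j ∈ Finset.Ioi i, (2 * (μ j * μ i)) ^ 2) =
      ∑ i : Fin pb.dim, ∑ j ∈ Finset.Ioi i,
        2 * (Real.log 2 + (Real.log (μ j) + Real.log (μ i))) := by
    have hne2 : ∀ i j : Fin pb.dim, (2 * (μ j * μ i)) ^ 2 ≠ 0 := fun i j =>
      pow_ne_zero _ (mul_ne_zero two_ne_zero (mul_ne_zero (hμ0 j) (hμ0 i)))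
    rw [Real.log_prod (fun i _ => Finset.prod_ne_zero_iff.2 fun j _ => hne2 i j)]
    refine Finset.sum_congr rfl fun i _ => ?_
    rw [Real.log_prod (fun j _ => hne2 i j)]
    refine Finset.sum_congr rfl fun j _ => ?_
    rw [Real.log_pow, Real.log_mul two_ne_zero (mul_ne_zero (hμ0 j) (hμ0 i)),
      Real.log_mul (hμ0 j) (hμ0 i)]
    norm_num
  have h5 : Real.log |(discr K : ℝ)| ≤ (pb.dim * (pb.dim - 1) : ℝ) * Real.log 2 +
      2 * ((pb.dim : ℝ) - 1) * ∑ i, Real.log (μ i) := by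
    rw [← sum_Ioi pb.dim (Real.log 2) (fun i => Real.log (μ i)), ← h4]
    exact Real.log_le_log hdpos h3
  have h6 : ∑ i, Real.log (μ i) =
      ∑ w : InfinitePlace K, (w.mult : ℝ) * Real.log (max 1 (w (z : K))) := by
    have e1 : ∑ i, Real.log (μ i) = ∑ φ : K →ₐ[ℚ] ℂ, Real.log (max 1 ‖φ (z : K)‖) := by
      rw [← Equiv.sum_comp f]
      refine Finset.sum_congr rfl fun i _ => ?_
      simp only [hμ, hgen]
    have e2 : ∑ φ : K →ₐ[ℚ] ℂ, Real.log (max 1 ‖φ (z : K)‖) =
        ∑ φ : K →+* ℂ, Real.log (max 1 ((InfinitePlace.mk φ) (z : K))) := by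
      rw [← Equiv.sum_comp (RingHom.equivRatAlgHom (R := K) (S := ℂ))]
      refine Finset.sum_congr rfl fun φ _ => ?_
      rw [InfinitePlace.apply]
      rfl
    rw [e1, e2, ← Finset.sum_fiberwise (g := fun φ : K →+* ℂ => InfinitePlace.mk φ)]
    refine Finset.sum_congr rfl fun w _ => ?_
    have e3 : ∀ φ ∈ (Finset.univ : Finset (K →+* ℂ)).filter (fun φ => InfinitePlace.mk φ = w),
        Real.log (max 1 ((InfinitePlace.mk φ) (z : K))) = Real.log (max 1 (w (z : K))) := by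
      intro φ hφ
      rw [(Finset.mem_filter.1 hφ).2]
    rw [Finset.sum_congr rfl e3, Finset.sum_const, nsmul_eq_mul, InfinitePlace.card_filter_mk_eq]
  rw [← h6, ← hdim]
  exact h5

end Pool.Agent.H37EU
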