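import Pool.Agent.H37EU.Stm
import Pool.Agent.H37EU.DISC0

/-! Stub DISC: the discriminant and the height of an integral generator. -/

set_option autoImplicit false

namespace Pool.Agent.H37EU

open NumberField IsDedekindDomain

theorem disc_height {K : Type} [Field K] [NumberField K] (t : K) :
    ∑ w : InfinitePlace K, (w.mult : ℝ) * Real.log (max 1 (w t)) ≤
      (Module.finrank ℚ K : ℝ) * Pool.Agent.W222.UABC.height ![t, 1 - t, -1] := by
  have hn : (Module.finrank ℚ K : ℝ) ≠ 0 := by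
    exact_mod_cast (Module.finrank_pos (R := ℚ) (M := K)).ne'
  unfold Pool.Agent.W222.UABC.height
  rw [mul_div_cancel₀ _ hn]
  have h1 : ∑ w : InfinitePlace K, (w.mult : ℝ) * Real.log (max 1 (w t)) ≤
      ∑ w : InfinitePlace K, (w.mult : ℝ) * Real.log (max (w ((![t, 1 - t, -1] : Fin 3 → K) 0))
        (max (w ((![t, 1 - t, -1] : Fin 3 → K) 1)) (w ((![t, 1 - t, -1] : Fin 3 → K) 2)))) := by
    refine Finset.sum_le_sum fun w _ => mul_le_mul_of_nonneg_left ?_ (Nat.cast_nonneg _)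
    refine Real.log_le_log (lt_of_lt_of_le one_pos (le_max_left _ _)) ?_
    have e0 : (![t, 1 - t, -1] : Fin 3 → K) 0 = t := rfl
    have e2 : (![t, 1 - t, -1] : Fin 3 → K) 2 = -1 := rfl
    rw [e0, e2]
    have h3 : w (-1 : K) = 1 := by
      rw [← InfinitePlace.norm_embedding_eq w (-1), map_neg, map_one, norm_neg, norm_one]
    rw [h3]
    exact max_le ((le_max_right _ _).trans (le_max_right _ _)) (le_max_left _ _)
  have h2 : 0 ≤ ∑ᶠ v : HeightOneSpectrum (𝓞 K), Real.log
      (max (FinitePlace.mk v ((![t, 1 - t, -1] : Fin 3 → K) 0))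
        (max (FinitePlace.mk v ((![t, 1 - t, -1] : Fin 3 → K) 1))
          (FinitePlace.mk v ((![t, 1 - t, -1] : Fin 3 → K) 2)))) := by
    refine finsum_nonneg fun v => Real.log_nonneg ?_
    have e2 : (![t, 1 - t, -1] : Fin 3 → K) 2 = -1 := rfl
    rw [e2]
    have h3 : FinitePlace.mk v (-1 : K) = 1 := by
      rw [show (FinitePlace.mk v (-1 : K)) = FinitePlace.mk v (1 : K) from
        map_neg_eq_map (FinitePlace.mk v) 1, map_one]
    rw [h3]
    exact (le_max_right _ _).trans (le_max_right _ _)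
  linarith

theorem t_DISC : S_DISC := by
  intro n hn
  refine ⟨(n * (n - 1) : ℝ) * Real.log 2, ?_⟩
  intro K _ _ t hK ht hint
  have h1 := log_discr_le hK (⟨t, hint⟩ : 𝓞 K) ht
  have h2 := disc_height t
  rw [hK] at h2
  have h3 : (2 : ℝ) ≤ n := by exact_mod_cast hn
  have h4 : 2 * ((n : ℝ) - 1) * ∑ w : InfinitePlace K, (w.mult : ℝ) * Real.log (max 1 (w t)) ≤
      2 * ((n : ℝ) - 1) * (n * Pool.Agent.W222.UABC.height ![t, 1 - t, -1]) :=
    mul_le_mul_of_nonneg_left h2 (by linarith)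
  have h5 : Real.log |(NumberField.discr K : ℝ)| ≤ (n * (n - 1) : ℝ) * Real.log 2 +
      2 * ((n : ℝ) - 1) * ∑ w : InfinitePlace K, (w.mult : ℝ) * Real.log (max 1 (w t)) := h1
  have h6 : (2 * n - 2 : ℝ) * (n * Pool.Agent.W222.UABC.height ![t, 1 - t, -1]) =
      2 * ((n : ℝ) - 1) * (n * Pool.Agent.W222.UABC.height ![t, 1 - t, -1]) := by ring
  rw [h6]
  linarith

end Pool.Agent.H37EU
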