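import Pool.Agent.H37EU.Ht
import Pool.Agent.H37EU.DISC

/-!
# The minimal polynomial of an exceptional unit, and the lower bound of its height
-/

set_option autoImplicit false

namespace Pool.Agent.H37EU

open NumberField IsDedekindDomain Polynomial

section

variable {K : Type} [Field K] [NumberField K] {t : K}

theorem gen_natDegree (hgen : IntermediateField.adjoin ℚ {t} = ⊤) :
    (minpoly ℚ t).natDegree = Module.finrank ℚ K := by
  rw [← IntermediateField.adjoin.finrank (Algebra.IsIntegral.isIntegral t), hgen,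
    IntermediateField.finrank_top']

/-- the infinite part is at most the height -/
theorem posLog_le_height :
    ∑ w : InfinitePlace K, (w.mult : ℝ) * Real.posLog (w t) ≤
      Module.finrank ℚ K * W222.UABC.height ![t, 1 - t, -1] := by
  have hn : (Module.finrank ℚ K : ℝ) ≠ 0 := by
    exact_mod_cast (Module.finrank_pos (R := ℚ) (M := K)).ne'
  unfold W222.UABC.height
  rw [mul_div_cancel₀ _ hn]
  simp only [Matrix.cons_val_zero, Matrix.cons_val_one, Matrix.cons_val]
  have h1 : 0 ≤ ∑ᶠ v : HeightOneSpectrum (𝓞 K), Real.log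
      (max (FinitePlace.mk v t) (max (FinitePlace.mk v (1 - t)) (FinitePlace.mk v (-1 : K)))) := by
    apply finsum_nonneg
    intro v
    apply Real.log_nonneg
    rw [fin_neg_one]
    exact (le_max_right _ _).trans (le_max_right _ _)
  refine le_trans ?_ (le_add_of_nonneg_right h1)
  refine Finset.sum_le_sum fun w _ => mul_le_mul_of_nonneg_left ?_ (Nat.cast_nonneg _)
  rw [inf_neg_one, Real.posLog_eq_log_max_one (apply_nonneg w t)]
  apply Real.log_le_log (lt_max_of_lt_left one_pos)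
  exact max_le ((le_max_right _ _).trans (le_max_right _ _)) (le_max_left _ _)

theorem height_nonneg : 0 ≤ W222.UABC.height ![t, 1 - t, -1] := by
  have hn : (0 : ℝ) < (Module.finrank ℚ K : ℝ) := by
    exact_mod_cast (Module.finrank_pos (R := ℚ) (M := K))
  have h := posLog_le_height (t := t)
  have h2 : 0 ≤ ∑ w : InfinitePlace K, (w.mult : ℝ) * Real.posLog (w t) :=
    Finset.sum_nonneg fun w _ => mul_nonneg (Nat.cast_nonneg _) Real.posLog_nonneg
  by_contra hcon
  push Not at hcon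
  nlinarith [mul_neg_of_pos_of_neg hn hcon]

theorem norm_unit (h1 : IsIntegral ℤ t) (h2 : IsIntegral ℤ t⁻¹) (ht : t ≠ 0) :
    |Algebra.norm ℚ t| = 1 := by
  obtain ⟨a, ha⟩ := IsIntegrallyClosed.isIntegral_iff.1 (Algebra.isIntegral_norm ℚ h1)
  obtain ⟨b, hb⟩ := IsIntegrallyClosed.isIntegral_iff.1 (Algebra.isIntegral_norm ℚ h2)
  have h3 : Algebra.norm ℚ t * Algebra.norm ℚ t⁻¹ = 1 := by
    rw [← map_mul, mul_inv_cancel₀ ht, map_one]
  rw [← ha, ← hb] at h3
  have h4 : a * b = 1 := by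
    have : ((a * b : ℤ) : ℚ) = 1 := by
      push_cast
      simpa using h3
    exact_mod_cast this
  have h5 : |a| = 1 := Int.isUnit_iff_abs_eq.1 (IsUnit.of_mul_eq_one b h4)
  rw [← ha]
  have h6 : ((|a| : ℤ) : ℚ) = 1 := by rw [h5]; norm_num
  rw [Int.cast_abs] at h6
  simpa using h6

theorem exc_poly {n : ℕ} (hn : 2 ≤ n) (hfin : Module.finrank ℚ K = n)
    (hgen : IntermediateField.adjoin ℚ {t} = ⊤) (h1 : IsIntegral ℤ t) (h2 : IsIntegral ℤ t⁻¹)
    (h3 : IsIntegral ℤ (1 - t)⁻¹) {B : ℝ} (hB : 1 ≤ B)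
    (hh : W222.UABC.height ![t, 1 - t, -1] ≤ Real.log B) :
    ∃ f : ℤ[X], f.Monic ∧ f.natDegree = n ∧ aeval t f = 0 ∧ |f.eval 0| = 1 ∧ |f.eval 1| = 1 ∧
      ∀ k, |((f.coeff k : ℤ) : ℝ)| ≤ (4 * B) ^ n := by
  have hBp : 0 < B := by linarith
  have ht0 : t ≠ 0 := by
    intro h
    apply H46QF.gen_irr (by omega) hgen 0
    rw [h, map_zero]
  have ht1 : t ≠ 1 := by
    intro h
    apply H46QF.gen_irr (by omega) hgen 1
    rw [h, map_one]
  have ht1' : (1 : K) - t ≠ 0 := sub_ne_zero.2 ht1.symm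
  have hm : (minpoly ℤ t).Monic := minpoly.monic h1
  have hirr : Irreducible (minpoly ℤ t) := minpoly.irreducible h1
  have hroot : aeval t (minpoly ℤ t) = 0 := minpoly.aeval ℤ t
  have hmin := minpoly_eq hm hirr hroot
  have hdeg : (minpoly ℤ t).natDegree = Module.finrank ℚ K := by
    rw [← gen_natDegree hgen, hmin, hm.natDegree_map]
  have n0 := norm_sub hm hirr hroot hdeg 0
  have n1 := norm_sub hm hirr hroot hdeg 1
  rw [Int.cast_zero, zero_sub] at n0
  rw [Int.cast_one] at n1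
  have u0 := norm_unit (t := -t) h1.neg (by rw [inv_neg]; exact h2.neg) (neg_ne_zero.2 ht0)
  have u1 := norm_unit (t := 1 - t) (isIntegral_one.sub h1) h3 ht1'
  rw [n0] at u0
  rw [n1] at u1
  refine ⟨minpoly ℤ t, hm, by rw [hdeg, hfin], hroot, by exact_mod_cast u0, by exact_mod_cast u1, ?_⟩
  intro k
  set p : ℂ[X] := (minpoly ℤ t).map (Int.castRingHom ℂ) with hp
  have hpm : p.Monic := hm.map _
  have hpd : p.natDegree = n := by rw [hp, hm.natDegree_map, hdeg, hfin]
  have e1 : Real.log p.mahlerMeasure ≤ n * Real.log B := by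
    rw [← logMahlerMeasure_eq_log_MahlerMeasure,
      logMahlerMeasure_eq_log_leadingCoeff_add_sum_log_roots, hpm.leadingCoeff, norm_one,
      Real.log_one, zero_add, hp, ← emb_sum hm hirr hroot hdeg fun z => Real.posLog ‖z‖,
      ← sum_inf Real.posLog t]
    refine posLog_le_height.trans ?_
    rw [hfin]
    exact mul_le_mul_of_nonneg_left hh (Nat.cast_nonneg _)
  have e2 : p.mahlerMeasure ≤ B ^ n := by
    rw [← Real.log_le_log_iff (mahlerMeasure_pos_of_ne_zero hpm.ne_zero) (by positivity), Real.log_pow]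
    exact e1
  have e3 := norm_coeff_le_choose_mul_mahlerMeasure k p
  have e4 : ‖p.coeff k‖ = |(((minpoly ℤ t).coeff k : ℤ) : ℝ)| := by
    rw [hp, coeff_map]
    simp
  rw [← e4]
  have e5 : ((p.natDegree.choose k : ℕ) : ℝ) ≤ 2 ^ n := by
    rw [hpd]
    exact_mod_cast Nat.choose_le_two_pow n k
  calc ‖p.coeff k‖ ≤ (p.natDegree.choose k) * p.mahlerMeasure := e3
    _ ≤ 2 ^ n * B ^ n := mul_le_mul e5 e2 (mahlerMeasure_nonneg _) (by positivity)
    _ = (2 * B) ^ n := by rw [mul_pow]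
    _ ≤ (4 * B) ^ n := by gcongr; norm_num

end

/-- the numbers of conductor one with height at most a power of the root discriminant smaller than
the critical one -/
theorem low_finite {n : ℕ} (hn : 2 ≤ n) {κ c : ℝ} (hκ : κ * (2 * n - 2) < 1) :
    {x : AlgebraicClosure ℚ | ∃ (K : IntermediateField ℚ (AlgebraicClosure ℚ)) (_ : NumberField K) (t : K),
      (t : AlgebraicClosure ℚ) = x ∧ Module.finrank ℚ K = n ∧ IntermediateField.adjoin ℚ {t} = ⊤ ∧
      IsIntegral ℤ t ∧ W222.UABC.conductor ![t, 1 - t, -1] = 0 ∧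
      W222.UABC.height ![t, 1 - t, -1] ≤ c + κ * W222.UABC.rootDisc K}.Finite := by
  obtain ⟨C, hC⟩ := t_DISC n hn
  have hn0 : (0 : ℝ) < n := by exact_mod_cast (by omega : 0 < n)
  refine (H46QF.inGen_finite n hn (max c ((c + |κ| * (|C| / n)) / (1 - κ * (2 * n - 2)))) 0).subset ?_
  rintro x ⟨K, hnf, t, h1, h2, h3, h4, h5, h6⟩
  refine ⟨K, hnf, t, h1, h2, h3, ?_, h5.le⟩
  have h7 := hC K t h2 h3 h4
  have h8 : W222.UABC.rootDisc K ≤ (2 * n - 2) * W222.UABC.height ![t, 1 - t, -1] + |C| / n := by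
    unfold W222.UABC.rootDisc
    rw [h2, div_le_iff₀ hn0]
    have e1 : ((2 * (n : ℝ) - 2) * W222.UABC.height ![t, 1 - t, -1] + |C| / n) * n =
        (2 * n - 2) * (n * W222.UABC.height ![t, 1 - t, -1]) + |C| := by
      field_simp
    rw [e1]
    exact h7.trans (by linarith [le_abs_self C])
  have h9 : 0 ≤ W222.UABC.rootDisc K :=
    div_nonneg (Real.log_nonneg W222.UABC.one_le_disc) (Nat.cast_nonneg _)
  rcases le_or_gt κ 0 with h0 | h0
  · refine le_trans (h6.trans ?_) (le_max_left _ _)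
    have := mul_le_mul_of_nonneg_right h0 h9
    linarith
  · refine le_trans ?_ (le_max_right _ _)
    rw [le_div_iff₀ (by linarith)]
    have k1 := mul_le_mul_of_nonneg_left h8 h0.le
    rw [abs_of_pos h0]
    linarith

end Pool.Agent.H37EU
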