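import Mathlib
import Pool.Agent.H46QF.Real
import Pool.Agent.H46QF.GFld

/-!
# Height and conductor of the roots of a monic integral polynomial
-/

set_option autoImplicit false

namespace Pool.Agent.H37EU

open NumberField IsDedekindDomain Polynomial

section

variable {K : Type} [Field K] [NumberField K]

/-- a sum over the infinite places -/
theorem sum_inf (F : ℝ → ℝ) (t : K) :
    ∑ w : InfinitePlace K, (w.mult : ℝ) * F (w t) = ∑ σ : K →+* ℂ, F ‖σ t‖ := by
  classical
  rw [← Finset.sum_fiberwise Finset.univ (fun σ : K →+* ℂ => InfinitePlace.mk σ)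
    (fun σ => F ‖σ t‖)]
  refine Finset.sum_congr rfl fun w _ => ?_
  rw [Finset.sum_congr rfl (g := fun _ => F (w t)) (by
    intro σ hσ
    have h2 := (Finset.mem_filter.1 hσ).2
    rw [← h2, InfinitePlace.apply])]
  rw [Finset.sum_const, nsmul_eq_mul, InfinitePlace.card_filter_mk_eq]

variable {t : K} {f : ℤ[X]} (hm : f.Monic) (hirr : Irreducible f) (hroot : aeval t f = 0)
  (hdeg : f.natDegree = Module.finrank ℚ K)

include hm hirr hroot in
theorem minpoly_eq : minpoly ℚ t = f.map (Int.castRingHom ℚ) := by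
  symm
  apply minpoly.eq_of_irreducible_of_monic
  · exact (hm.irreducible_iff_irreducible_map_fraction_map (K := ℚ)).1 hirr
  · rw [← hroot, aeval_def, aeval_def, eval₂_map]
    congr 1 <;> exact RingHom.ext_int _ _
  · exact hm.map _

include hm hirr hroot hdeg in
theorem emb_sum (F : ℂ → ℝ) :
    ∑ σ : K →+* ℂ, F (σ t) = ((f.map (Int.castRingHom ℂ)).roots.map F).sum := by
  classical
  set p : ℂ[X] := f.map (Int.castRingHom ℂ) with hp
  have hmin := minpoly_eq hm hirr hroot
  have hpm : p.Monic := hm.map _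
  have hp' : p = (minpoly ℚ t).map (algebraMap ℚ ℂ) := by
    rw [hmin, map_map, hp]
    congr 1 <;> exact RingHom.ext_int _ _
  have hsep : p.Separable := by
    rw [hp']
    exact (minpoly.irreducible (Algebra.IsIntegral.isIntegral t)).separable.map
  have hnd : p.roots.Nodup := nodup_roots hsep
  have hset : (Set.range fun σ : K →+* ℂ => σ t) = (minpoly ℚ t).rootSet ℂ :=
    NumberField.Embeddings.range_eval_eq_rootSet_minpoly K ℂ t
  have himg : Finset.univ.image (fun σ : K →+* ℂ => σ t) = p.roots.toFinset := by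
    rw [← Finset.coe_inj, Finset.coe_image, Finset.coe_univ, Set.image_univ, hset]
    ext z
    rw [rootSet_def, Finset.mem_coe, Finset.mem_coe, Multiset.mem_toFinset, Multiset.mem_toFinset,
      aroots_def, ← hp']
  have hcard : (Finset.univ.image (fun σ : K →+* ℂ => σ t)).card = (Finset.univ : Finset (K →+* ℂ)).card := by
    rw [himg, Multiset.toFinset_card_of_nodup hnd, Finset.card_univ, Embeddings.card]
    have h1 := (IsAlgClosed.splits p).natDegree_eq_card_roots
    rw [← h1, ← hdeg, hp]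
    exact hm.natDegree_map _
  have hinj : Set.InjOn (fun σ : K →+* ℂ => σ t) ((Finset.univ : Finset (K →+* ℂ)) : Set (K →+* ℂ)) :=
    Finset.card_image_iff.1 hcard
  rw [← Finset.sum_image (f := F) (g := fun σ : K →+* ℂ => σ t) hinj, himg,
    Finset.sum_eq_multiset_sum, Multiset.toFinset_val, Multiset.dedup_eq_self.2 hnd]

include hm hirr hroot hdeg in
theorem log_mahler {W : ℝ} (hW : 0 < W) (hc : ∀ k, |((f.coeff k : ℤ) : ℝ)| ≤ W) :
    ∑ w : InfinitePlace K, (w.mult : ℝ) * Real.posLog (w t) ≤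
      Real.log (√(Module.finrank ℚ K + 1) * W) := by
  rw [sum_inf Real.posLog t, emb_sum hm hirr hroot hdeg fun z => Real.posLog ‖z‖]
  set p : ℂ[X] := f.map (Int.castRingHom ℂ) with hp
  have hpm : p.Monic := hm.map _
  have h1 := logMahlerMeasure_eq_log_leadingCoeff_add_sum_log_roots p
  rw [hpm.leadingCoeff, norm_one, Real.log_one, zero_add, logMahlerMeasure_eq_log_MahlerMeasure] at h1
  rw [← h1]
  apply Real.log_le_log (mahlerMeasure_pos_of_ne_zero hpm.ne_zero)
  refine (mahlerMeasure_le_sqrt_natDegree_add_one_mul_supNorm p).trans ?_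
  have h2 : p.natDegree = Module.finrank ℚ K := by rw [← hdeg, hp]; exact hm.natDegree_map _
  have h3 : p.supNorm ≤ W := by
    obtain ⟨i, hi⟩ := exists_eq_supNorm p
    rw [hi, hp, coeff_map]
    simpa using hc i
  rw [h2]
  exact mul_le_mul_of_nonneg_left h3 (Real.sqrt_nonneg _)

theorem fin_le_one (ht : IsIntegral ℤ t) (v : HeightOneSpectrum (𝓞 K)) : FinitePlace.mk v t ≤ 1 := by
  obtain ⟨z, hz⟩ : ∃ z : 𝓞 K, (z : K) = t := ⟨⟨t, ht⟩, rfl⟩
  rw [← hz, FinitePlace.mk_apply]
  exact FinitePlace.norm_le_one K v z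

theorem fin_neg_one (v : HeightOneSpectrum (𝓞 K)) : FinitePlace.mk v (-1 : K) = 1 := by
  rw [map_neg_eq_map, map_one]

theorem inf_neg_one (w : InfinitePlace K) : w (-1 : K) = 1 := by
  have h1 : w (-1 : K) * w (-1 : K) = 1 := by
    rw [← map_mul]
    simp
  have h2 : 0 ≤ w (-1 : K) := apply_nonneg w _
  nlinarith

include hm hirr hroot hdeg in
theorem height_le {W : ℝ} (hW : 0 < W) (hc : ∀ k, |((f.coeff k : ℤ) : ℝ)| ≤ W)
    (ht : IsIntegral ℤ t) :
    (Module.finrank ℚ K : ℝ) * W222.UABC.height ![t, 1 - t, -1] ≤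
      Module.finrank ℚ K * Real.log 2 + Real.log (√(Module.finrank ℚ K + 1) * W) := by
  have hn : (Module.finrank ℚ K : ℝ) ≠ 0 := by
    exact_mod_cast (Module.finrank_pos (R := ℚ) (M := K)).ne'
  have ht1 : IsIntegral ℤ (1 - t) := isIntegral_one.sub ht
  unfold W222.UABC.height
  rw [mul_div_cancel₀ _ hn]
  simp only [Matrix.cons_val_zero, Matrix.cons_val_one, Matrix.cons_val]
  have hfin : ∑ᶠ v : HeightOneSpectrum (𝓞 K), Real.log
      (max (FinitePlace.mk v t) (max (FinitePlace.mk v (1 - t)) (FinitePlace.mk v (-1 : K)))) = 0 := by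
    apply finsum_eq_zero_of_forall_eq_zero
    intro v
    rw [fin_neg_one, max_eq_right (fin_le_one ht1 v), max_eq_right (fin_le_one ht v), Real.log_one]
  rw [hfin, add_zero]
  have h1 := log_mahler hm hirr hroot hdeg hW hc
  have hmult : ∑ w : InfinitePlace K, (w.mult : ℝ) * Real.log 2 = Module.finrank ℚ K * Real.log 2 := by
    rw [← Finset.sum_mul]
    congr 1
    exact_mod_cast InfinitePlace.sum_mult_eq (K := K)
  rw [← hmult]
  refine le_trans ?_ (add_le_add le_rfl h1)
  rw [← Finset.sum_add_distrib]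
  refine Finset.sum_le_sum fun w _ => ?_
  rw [← mul_add]
  refine mul_le_mul_of_nonneg_left ?_ (Nat.cast_nonneg _)
  rw [inf_neg_one, Real.posLog_eq_log_max_one (apply_nonneg w t), ← Real.log_mul (by norm_num)
    (by positivity)]
  have h2 : w (1 - t) ≤ 1 + w t := by
    have := norm_sub_le (w.embedding 1) (w.embedding t)
    rw [← map_sub, InfinitePlace.norm_embedding_eq, InfinitePlace.norm_embedding_eq,
      InfinitePlace.norm_embedding_eq, map_one] at this
    exact this
  have h3 : (1 : ℝ) ≤ max 1 (w t) := le_max_left _ _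
  have h4 : w t ≤ max 1 (w t) := le_max_right _ _
  apply Real.log_le_log
  · exact lt_max_of_lt_right (lt_max_of_lt_right one_pos)
  · refine max_le (by linarith) (max_le (by linarith) (by linarith))

include hm hirr hroot hdeg in
theorem charpoly_eq : (Algebra.lmul ℚ K t).charpoly = f.map (Int.castRingHom ℚ) := by
  have h1 := minpoly_eq hm hirr hroot
  have h2 : minpoly ℚ t ∣ (Algebra.lmul ℚ K t).charpoly :=
    minpoly.dvd _ _ (Algebra.aeval_self_charpoly_lmul t)
  rw [← h1]
  apply eq_of_monic_of_dvd_of_natDegree_le (minpoly.monic (Algebra.IsIntegral.isIntegral t))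
    (LinearMap.charpoly_monic _) h2
  rw [LinearMap.charpoly_natDegree, h1, hm.natDegree_map, hdeg]

include hm hirr hroot hdeg in
theorem norm_sub (a : ℤ) : Algebra.norm ℚ ((a : K) - t) = ((f.eval a : ℤ) : ℚ) := by
  have h1 := W222.UABC.eval_charpoly_lmul t (a : ℚ)
  rw [charpoly_eq hm hirr hroot hdeg] at h1
  have h2 : ((a : K) - t) = algebraMap ℚ K (a : ℚ) - t := by simp
  rw [h2, ← h1, eval_intCast_map]
  simp

include hm hirr hroot hdeg in
theorem cond_le (ht : IsIntegral ℤ t) (h0 : f.eval 0 ≠ 0) (h1 : f.eval 1 ≠ 0) :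
    (Module.finrank ℚ K : ℝ) * W222.UABC.conductor ![t, 1 - t, -1] ≤
      Real.log |(((f.eval 0 : ℤ) : ℝ) * ((f.eval 1 : ℤ) : ℝ))| := by
  obtain ⟨z, hz⟩ : ∃ z : 𝓞 K, (z : K) = t := ⟨⟨t, ht⟩, rfl⟩
  have n0 := norm_sub hm hirr hroot hdeg 0
  have n1 := norm_sub hm hirr hroot hdeg 1
  rw [Int.cast_zero, zero_sub] at n0
  rw [Int.cast_one] at n1
  have ht0 : t ≠ 0 := by
    intro h
    rw [h, neg_zero, Algebra.norm_zero] at n0
    exact h0 (by exact_mod_cast n0.symm)
  have ht1 : t ≠ 1 := by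
    intro h
    rw [h, sub_self, Algebra.norm_zero] at n1
    exact h1 (by exact_mod_cast n1.symm)
  have hz0 : z ≠ 0 := by
    intro h
    apply ht0
    rw [← hz, h]; simp
  have hz1 : z ≠ 1 := by
    intro h
    apply ht1
    rw [← hz, h]; simp
  have h2 := H46QF.cond_le_norm z hz0 hz1
  rw [hz] at h2
  refine h2.trans (le_of_eq ?_)
  congr 1
  have e1 : ((Algebra.norm ℤ (z * (1 - z)) : ℤ) : ℚ) = Algebra.norm ℚ (t * (1 - t)) := by
    rw [Algebra.coe_norm_int]
    have e0 : ((z * (1 - z) : 𝓞 K) : K) = t * (1 - t) := by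
      rw [← hz]
      push_cast
      rfl
    rw [e0]
  have e2 : (Algebra.norm ℚ (-1 : K)) * (Algebra.norm ℚ (-1 : K)) = 1 := by
    rw [← map_mul, neg_one_mul, neg_neg, map_one]
  have e3 : |Algebra.norm ℚ (-1 : K)| = 1 := by
    have e4 : |Algebra.norm ℚ (-1 : K)| * |Algebra.norm ℚ (-1 : K)| = 1 := by
      rw [← abs_mul, e2, abs_one]
    have e5 := abs_nonneg (Algebra.norm ℚ (-1 : K))
    nlinarith
  have e6 : |Algebra.norm ℚ (t * (1 - t))| = |(((f.eval 0 : ℤ) : ℚ) * ((f.eval 1 : ℤ) : ℚ))| := by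
    rw [map_mul, abs_mul, ← n1, abs_mul]
    congr 1
    rw [← n0, ← neg_one_mul t, map_mul, abs_mul, e3, one_mul]
  have e7 : (|(((Algebra.norm ℤ (z * (1 - z)) : ℤ) : ℚ))| : ℚ) = |(((f.eval 0 : ℤ) : ℚ) * ((f.eval 1 : ℤ) : ℚ))| := by
    rw [e1, e6]
  exact_mod_cast e7

end

/-- the point attached to a polynomial -/
theorem exists_point {n : ℕ} {f : ℤ[X]} (hm : f.Monic) (hirr : Irreducible f)
    (hd : f.natDegree = n) {W : ℝ} (hW : 0 < W) (hc : ∀ k, |((f.coeff k : ℤ) : ℝ)| ≤ W)
    (h0 : f.eval 0 ≠ 0) (h1 : f.eval 1 ≠ 0) :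
    ∃ x : AlgebraicClosure ℚ, aeval x f = 0 ∧
      ∃ (K : IntermediateField ℚ (AlgebraicClosure ℚ)) (_ : NumberField K) (t : K),
        (t : AlgebraicClosure ℚ) = x ∧ Module.finrank ℚ K = n ∧
        IntermediateField.adjoin ℚ {t} = ⊤ ∧ IsIntegral ℤ t ∧
        (n : ℝ) * W222.UABC.height ![t, 1 - t, -1] ≤ n * Real.log 2 + Real.log (√(n + 1) * W) ∧
        (n : ℝ) * W222.UABC.conductor ![t, 1 - t, -1] ≤
          Real.log |(((f.eval 0 : ℤ) : ℝ) * ((f.eval 1 : ℤ) : ℝ))| := by
  have hdeg0 : (f.map (Int.castRingHom (AlgebraicClosure ℚ))).degree ≠ 0 := by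
    rw [hm.degree_map]
    intro h
    have h2 : f.natDegree = 0 := natDegree_eq_of_degree_eq_some h
    have h3 : f = 1 := hm.natDegree_eq_zero.1 h2
    exact hirr.not_isUnit (by rw [h3]; exact isUnit_one)
  obtain ⟨x, hx⟩ := IsAlgClosed.exists_root _ hdeg0
  have hx' : aeval x f = 0 := by
    rw [IsRoot.def, eval_map] at hx
    rw [aeval_def, ← hx]
    congr 1 <;> exact RingHom.ext_int _ _
  have hxi : IsIntegral ℤ x := ⟨f, hm, by rw [aeval_def] at hx'; exact hx'⟩
  have hxq : IsIntegral ℚ x := hxi.tower_top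
  have hmin : minpoly ℚ x = f.map (Int.castRingHom ℚ) := by
    symm
    apply minpoly.eq_of_irreducible_of_monic
    · exact (hm.irreducible_iff_irreducible_map_fraction_map (K := ℚ)).1 hirr
    · rw [← hx', aeval_def, aeval_def, eval₂_map]
      congr 1 <;> exact RingHom.ext_int _ _
    · exact hm.map _
  obtain ⟨K, hK⟩ : ∃ K : IntermediateField ℚ (AlgebraicClosure ℚ),
      K = IntermediateField.adjoin ℚ {x} := ⟨_, rfl⟩
  have hxK : x ∈ K := by rw [hK]; exact IntermediateField.mem_adjoin_simple_self ℚ x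
  have hfd : FiniteDimensional ℚ K := by rw [hK]; exact IntermediateField.adjoin.finiteDimensional hxq
  have hnf : NumberField K := { to_charZero := inferInstance, to_finiteDimensional := hfd }
  have hfin : Module.finrank ℚ K = n := by
    rw [hK, IntermediateField.adjoin.finrank hxq, hmin, hm.natDegree_map, hd]
  obtain ⟨t, ht⟩ : ∃ t : K, (t : AlgebraicClosure ℚ) = x := ⟨⟨x, hxK⟩, rfl⟩
  have htop : IntermediateField.adjoin ℚ {t} = ⊤ := by
    have key : ∀ (i : Algebra ℚ K), @IntermediateField.adjoin ℚ _ K _ i {t} = ⊤ := by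
      intro i
      have hi' : i = K.algebra' := Subsingleton.elim _ _
      subst hi'
      apply IntermediateField.lift_injective
      rw [IntermediateField.lift_adjoin_simple, IntermediateField.lift_top, ht, ← hK]
    exact key _
  have hti : IsIntegral ℤ t := by
    rw [← isIntegral_algHom_iff (K.val.restrictScalars ℤ) (fun a b h => Subtype.ext h)]
    change IsIntegral ℤ (t : AlgebraicClosure ℚ)
    rw [ht]
    exact hxi
  have hroot : aeval t f = 0 := by
    apply Subtype.ext
    have e1 : ((aeval t f : K) : AlgebraicClosure ℚ) = aeval (t : AlgebraicClosure ℚ) f := by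
      rw [aeval_def, aeval_def]
      have := hom_eval₂ f (algebraMap ℤ K) (K.val : K →+* AlgebraicClosure ℚ) t
      refine Eq.trans this ?_
      congr 1 <;> exact RingHom.ext_int _ _
    rw [e1, ht, hx']
    rfl
  have hdeg : f.natDegree = Module.finrank ℚ K := by rw [hd, hfin]
  have k1 := height_le hm hirr hroot hdeg hW hc hti
  have k2 := cond_le hm hirr hroot hdeg hti h0 h1
  rw [hfin] at k1 k2
  exact ⟨x, hx', K, hnf, t, ht, hfin, htop, hti, k1, k2⟩

end Pool.Agent.H37EU
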