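import Pool.Agent.H37EU.Poly
import Pool.Agent.H37EU.Ht

/-!
# Many integral points of small conductor
-/

set_option autoImplicit false

namespace Pool.Agent.H37EU

open NumberField IsDedekindDomain Polynomial

/-- the algebraic integers of degree `n` with bounded height and conductor -/
def IntGen (n : ℕ) (T W : ℝ) (x : AlgebraicClosure ℚ) : Prop :=
  ∃ (K : IntermediateField ℚ (AlgebraicClosure ℚ)) (_ : NumberField K) (t : K),
    (t : AlgebraicClosure ℚ) = x ∧ Module.finrank ℚ K = n ∧ t ∈ H46QF.GenK K T W ∧ IsIntegral ℤ t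

theorem poly_unique {x : AlgebraicClosure ℚ} {f f' : ℤ[X]} (hm : f.Monic) (hirr : Irreducible f)
    (hx : aeval x f = 0) (hm' : f'.Monic) (hirr' : Irreducible f') (hx' : aeval x f' = 0) :
    f = f' := by
  have key : ∀ f : ℤ[X], f.Monic → Irreducible f → aeval x f = 0 →
      minpoly ℚ x = f.map (Int.castRingHom ℚ) := by
    intro f hm hirr hx
    symm
    apply minpoly.eq_of_irreducible_of_monic
    · exact (hm.irreducible_iff_irreducible_map_fraction_map (K := ℚ)).1 hirr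
    · rw [← hx, aeval_def, aeval_def, eval₂_map]
      congr 1
    · exact hm.map _
  have h1 := (key f hm hirr hx).symm.trans (key f' hm' hirr' hx')
  exact map_injective _ (RingHom.injective_int _) h1

theorem low_many (n : ℕ) (hn : 2 ≤ n) : ∃ c B0 : ℝ, 0 < c ∧ 1 ≤ B0 ∧ ∀ B R : ℝ, B0 ≤ B → 1 ≤ R →
    R ≤ B ^ 2 → ∃ E : Finset (AlgebraicClosure ℚ), c * (R ^ n * B ^ (n * (n - 2))) ≤ (E.card : ℝ) ∧
      ∀ x ∈ E, IntGen n (Real.log B) (Real.log R) x := by
  classical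
  obtain ⟨h, hm, hd, hirr, h0, h1⟩ := exists_lift n hn
  have hn0 : (0 : ℝ) < n := by exact_mod_cast (by omega : 0 < n)
  obtain ⟨C0, hC0⟩ : ∃ C0 : ℝ, C0 = ∑ k ∈ Finset.range (n + 1), |((h.coeff k : ℤ) : ℝ)| +
    2 * |((h.eval 0 : ℤ) : ℝ)| + |((h.eval 1 : ℤ) : ℝ)| := ⟨_, rfl⟩
  have hC00 : 0 ≤ C0 := by rw [hC0]; positivity
  have hcoef : ∀ k, |((h.coeff k : ℤ) : ℝ)| + 2 * |((h.eval 0 : ℤ) : ℝ)| + |((h.eval 1 : ℤ) : ℝ)| ≤ C0 := by
    intro k
    rw [hC0]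
    have : |((h.coeff k : ℤ) : ℝ)| ≤ ∑ k ∈ Finset.range (n + 1), |((h.coeff k : ℤ) : ℝ)| := by
      by_cases hk : k ∈ Finset.range (n + 1)
      · exact Finset.single_le_sum (f := fun k => |((h.coeff k : ℤ) : ℝ)|) (fun _ _ => abs_nonneg _) hk
      · rw [coeff_eq_zero_of_natDegree_lt (by rw [Finset.mem_range] at hk; omega)]
        simp only [Int.cast_zero, abs_zero]
        positivity
    linarith
  obtain ⟨D, hD⟩ : ∃ D : ℝ, D = 2 ^ n * √(n + 1) := ⟨_, rfl⟩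
  have hs1 : 1 ≤ √((n : ℝ) + 1) := Real.one_le_sqrt.2 (by linarith)
  have hD1 : 1 ≤ D := by
    rw [hD]
    exact one_le_mul_of_one_le_of_one_le (one_le_pow₀ (by norm_num)) hs1
  obtain ⟨ρ, hρ⟩ : ∃ ρ : ℝ, ρ = 1 / (2 * D * (3 + 2 * n)) := ⟨_, rfl⟩
  have hρ0 : 0 < ρ := by rw [hρ]; positivity
  have hρ1 : ρ ≤ 1 := by
    rw [hρ, div_le_one (by positivity)]
    nlinarith
  have hρD : D * (3 + 2 * n) * ρ = 1 / 2 := by
    rw [hρ]
    field_simp
  refine ⟨ρ ^ n / 9, 2 * D * (C0 + 3), by positivity, by nlinarith, ?_⟩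
  intro B R hB hR hRB
  have hB1 : 1 ≤ B := le_trans (by nlinarith) hB
  have hB0 : 0 < B := by linarith
  have hR0 : 0 < R := by linarith
  have hBn : B ≤ B ^ n := le_self_pow₀ hB1 (by omega)
  obtain ⟨G, hG⟩ : ∃ G : ℝ, G = ρ * B ^ n := ⟨_, rfl⟩
  have hG0 : 0 ≤ G := by rw [hG]; positivity
  obtain ⟨q, hq⟩ : ∃ q : ℝ, q = √(R ^ n) := ⟨_, rfl⟩
  have hq0 : 0 ≤ q := by rw [hq]; positivity
  have hq2 : q ^ 2 = R ^ n := by rw [hq, Real.sq_sqrt (by positivity)]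
  have hRn1 : 1 ≤ R ^ n := one_le_pow₀ hR
  have hqB : q ≤ B ^ n := by
    rw [hq]
    apply Real.sqrt_le_iff.2 ⟨by positivity, ?_⟩
    rw [← pow_mul, mul_comm n 2, pow_mul]
    gcongr
  obtain ⟨A, hA⟩ : ∃ A : ℝ, A = max 1 (ρ * q) := ⟨_, rfl⟩
  have hA1 : 1 ≤ A := by rw [hA]; exact le_max_left _ _
  have hAq : ρ * q ≤ A := by rw [hA]; exact le_max_right _ _
  have hA2 : A ^ 2 ≤ R ^ n := by
    rw [hA]
    rcases le_total 1 (ρ * q) with h2 | h2
    · rw [max_eq_right h2, mul_pow, hq2]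
      have : ρ ^ 2 ≤ 1 := pow_le_one₀ hρ0.le hρ1
      nlinarith
    · rw [max_eq_left h2, one_pow]
      exact hRn1
  have hAB : A ≤ 1 + ρ * B ^ n := by
    rw [hA]
    refine max_le ?_ ?_
    · have : 0 ≤ ρ * B ^ n := by positivity
      linarith
    · have := mul_le_mul_of_nonneg_left hqB hρ0.le
      linarith
  obtain ⟨W, hW⟩ : ∃ W : ℝ, W = C0 + 3 * A + 2 * n * G := ⟨_, rfl⟩
  have hW0 : 0 < W := by
    have : 0 ≤ 2 * n * G := by positivity
    rw [hW]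
    linarith
  have hWB : D * W ≤ B ^ n := by
    have e1 : D * W ≤ D * (C0 + 3) + D * (3 + 2 * n) * ρ * B ^ n := by
      have e2 : D * (3 * A) ≤ D * (3 * (1 + ρ * B ^ n)) := by gcongr
      have e3 : D * W = D * C0 + D * (3 * A) + D * (2 * n * G) := by rw [hW]; ring
      have e4 : D * (2 * n * G) = D * (2 * n) * ρ * B ^ n := by rw [hG]; ring
      rw [e3, e4]
      nlinarith [e2]
    rw [hρD] at e1
    linarith
  obtain ⟨J, hJ⟩ : ∃ J : ℕ, J = ⌊(A - 1) / 2⌋₊ := ⟨_, rfl⟩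
  have hJA : 2 * (J : ℝ) + 1 ≤ A := by
    have := Nat.floor_le (a := (A - 1) / 2) (by linarith)
    rw [← hJ] at this
    linarith
  have hJ3 : A / 3 ≤ (J : ℝ) + 1 := by
    have := Nat.lt_floor_add_one ((A - 1) / 2)
    rw [← hJ] at this
    have : (0 : ℝ) ≤ J := Nat.cast_nonneg _
    rcases le_total A 3 with h3 | h3 <;> linarith
  obtain ⟨g0, hg0⟩ : ∃ g0 : ℕ, g0 = ⌊G⌋₊ := ⟨_, rfl⟩
  have hg0G : (g0 : ℝ) ≤ G := by rw [hg0]; exact Nat.floor_le hG0
  have hGg : G ≤ 2 * (g0 : ℝ) + 1 := by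
    have := Nat.lt_floor_add_one G
    rw [← hg0] at this
    have : (0 : ℝ) ≤ g0 := Nat.cast_nonneg _
    linarith
  set P : Finset ((ℕ × ℕ) × (Fin (n - 2) → ℤ)) := (Finset.range (J + 1) ×ˢ Finset.range (J + 1)) ×ˢ
    Fintype.piFinset (fun _ : Fin (n - 2) => Finset.Icc (-(g0 : ℤ)) g0) with hP
  have hPcard : P.card = ((J + 1) * (J + 1)) * (2 * g0 + 1) ^ (n - 2) := by
    rw [hP, Finset.card_product, Finset.card_product, Finset.card_range, Fintype.card_piFinset]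
    simp only [Finset.prod_const, Finset.card_univ, Fintype.card_fin, Int.card_Icc]
    congr 2
    omega
  have hpt : ∀ p ∈ P, ∃ x : AlgebraicClosure ℚ,
      aeval x (fam n h (2 * p.1.1 + 1) (2 * p.1.2 + 1) p.2) = 0 ∧
      IntGen n (Real.log B) (Real.log R) x := by
    intro p hp
    rw [hP, Finset.mem_product, Finset.mem_product, Fintype.mem_piFinset] at hp
    obtain ⟨⟨hp1, hp2⟩, hp3⟩ := hp
    rw [Finset.mem_range] at hp1 hp2
    have hodd : ∀ j : ℕ, Odd (2 * (j : ℤ) + 1) := fun j => ⟨j, rfl⟩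
    have hle : ∀ j : ℕ, j < J + 1 → |((2 * (j : ℤ) + 1 : ℤ) : ℝ)| ≤ A := by
      intro j hj
      have h2 : (j : ℝ) ≤ J := by exact_mod_cast Nat.lt_succ_iff.1 hj
      push_cast
      rw [abs_of_nonneg (by positivity)]
      linarith
    have hgle : ∀ i, |((p.2 i : ℤ) : ℝ)| ≤ G := by
      intro i
      have h2 := hp3 i
      rw [Finset.mem_Icc] at h2
      refine le_trans ?_ hg0G
      rw [abs_le]
      constructor
      · have := h2.1
        exact_mod_cast this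
      · have := h2.2
        exact_mod_cast this
    set f := fam n h (2 * (p.1.1 : ℤ) + 1) (2 * (p.1.2 : ℤ) + 1) p.2 with hf
    have hfm : f.Monic := fam_monic hn hm hd _ _ _
    have hfi : Irreducible f := fam_irr hn hm hd hirr h0 h1 (hodd _) (hodd _) _
    have hfd : f.natDegree = n := fam_natDegree hn hm hd _ _ _
    have hfc : ∀ k, |((f.coeff k : ℤ) : ℝ)| ≤ W := by
      intro k
      have k1 := fam_coeff_le (n := n) (h := h) A G hG0 (hle _ hp1) (hle _ hp2) hgle k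
      have k2 := hcoef k
      rw [← hf] at k1
      rw [hW]
      linarith
    have hf0 : f.eval 0 = 2 * (p.1.1 : ℤ) + 1 := fam_eval_zero _ _ _
    have hf1 : f.eval 1 = 2 * (p.1.2 : ℤ) + 1 := fam_eval_one _ _ _
    obtain ⟨x, hx, K, hnf, t, ht, hfin, hgen, hint, hh, hc⟩ := exists_point hfm hfi hfd hW0 hfc
      (by rw [hf0]; omega) (by rw [hf1]; omega)
    refine ⟨x, hx, K, hnf, t, ht, hfin, ⟨hgen, ?_, ?_⟩, hint⟩
    · have e1 : n * Real.log 2 + Real.log (√(n + 1) * W) = Real.log (D * W) := by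
        have e0 := Real.log_mul (x := (2 : ℝ) ^ n) (y := √((n : ℝ) + 1) * W) (by positivity)
          (by positivity)
        rw [hD, mul_assoc, e0, Real.log_pow]
      rw [e1] at hh
      have e2 : Real.log (D * W) ≤ n * Real.log B := by
        rw [← Real.log_pow]
        exact Real.log_le_log (by positivity) hWB
      exact le_of_mul_le_mul_left (hh.trans e2) hn0
    · rw [hf0, hf1] at hc
      have e1 : |(((2 * (p.1.1 : ℤ) + 1 : ℤ) : ℝ) * ((2 * (p.1.2 : ℤ) + 1 : ℤ) : ℝ))| ≤ R ^ n := by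
        rw [abs_mul]
        calc _ ≤ A * A := mul_le_mul (hle _ hp1) (hle _ hp2) (abs_nonneg _) (by linarith)
          _ = A ^ 2 := by ring
          _ ≤ _ := hA2
      have e2 : (0 : ℝ) < |(((2 * (p.1.1 : ℤ) + 1 : ℤ) : ℝ) * ((2 * (p.1.2 : ℤ) + 1 : ℤ) : ℝ))| := by
        rw [abs_pos]
        have a1 : (2 * (p.1.1 : ℤ) + 1 : ℤ) ≠ 0 := by omega
        have a2 : (2 * (p.1.2 : ℤ) + 1 : ℤ) ≠ 0 := by omega
        exact mul_ne_zero (by exact_mod_cast a1) (by exact_mod_cast a2)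
      have e3 := Real.log_le_log e2 e1
      rw [Real.log_pow] at e3
      exact le_of_mul_le_mul_left (hc.trans e3) hn0
  choose! Φ hΦ1 hΦ2 using hpt
  refine ⟨P.image Φ, ?_, ?_⟩
  · have hinj : Set.InjOn Φ (P : Set ((ℕ × ℕ) × (Fin (n - 2) → ℤ))) := by
      intro p hp p' hp' he
      have hodd : ∀ j : ℕ, Odd (2 * (j : ℤ) + 1) := fun j => ⟨j, rfl⟩
      have k1 := hΦ1 p (Finset.mem_coe.1 hp)
      have k2 := hΦ1 p' (Finset.mem_coe.1 hp')
      rw [← he] at k2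
      have k3 := poly_unique (fam_monic hn hm hd _ _ _) (fam_irr hn hm hd hirr h0 h1 (hodd _) (hodd _) _) k1
        (fam_monic hn hm hd _ _ _) (fam_irr hn hm hd hirr h0 h1 (hodd _) (hodd _) _) k2
      obtain ⟨j1, j2, j3⟩ := fam_inj k3
      have l1 : p.1.1 = p'.1.1 := by omega
      have l2 : p.1.2 = p'.1.2 := by omega
      exact Prod.ext (Prod.ext l1 l2) j3
    rw [Finset.card_image_of_injOn hinj, hPcard]
    push_cast
    have hsub : ((n - 2 : ℕ)) + 2 = n := by omega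
    have e1 : (A / 3) * (A / 3) * G ^ (n - 2) ≤ ((J : ℝ) + 1) * (J + 1) * (2 * g0 + 1) ^ (n - 2) := by
      have : 0 ≤ A / 3 := by linarith
      gcongr
    refine le_trans ?_ e1
    have e2 : ρ ^ 2 * R ^ n ≤ A * A := by
      have := mul_le_mul hAq hAq (by positivity) (by linarith)
      have e3 : ρ * q * (ρ * q) = ρ ^ 2 * R ^ n := by rw [← hq2]; ring
      rwa [e3] at this
    have e4 : G ^ (n - 2) = ρ ^ (n - 2) * B ^ (n * (n - 2)) := by
      rw [hG, mul_pow, ← pow_mul]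
    rw [e4]
    have e5 : ρ ^ n = ρ ^ (n - 2) * ρ ^ 2 := by rw [← pow_add, hsub]
    calc ρ ^ n / 9 * (R ^ n * B ^ (n * (n - 2)))
        = (ρ ^ 2 * R ^ n) / 9 * (ρ ^ (n - 2) * B ^ (n * (n - 2))) := by rw [e5]; ring
      _ ≤ (A * A) / 9 * (ρ ^ (n - 2) * B ^ (n * (n - 2))) := by gcongr
      _ = _ := by ring
  · intro x hx
    obtain ⟨p, hp, rfl⟩ := Finset.mem_image.1 hx
    exact hΦ2 p hp

end Pool.Agent.H37EU
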