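import Pool.Agent.W222.UABC.Final

/-!
# Statement of the stub DISC (project EU: exceptional units and the uniform abc inequality)
-/

set_option autoImplicit false

namespace Pool.Agent.H37EU

open NumberField

/-- Stub DISC. The root discriminant and the height of an integral generator. Proof: `1, t, …, t^(n-1)` is a basis of
`K` of algebraic integers, so `|discr K| ≤ |Algebra.discr ℚ (1, t, …, t^(n-1))|` (the matrix of the powers of `t` in an
integral basis is integral, with determinant `≠ 0`), which is `∏_{i<j} |t_i - t_j|^2` for the conjugates `t_i = σ_i t`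
(Vandermonde: `Algebra.discr_powerBasis_eq_prod''` or `Algebra.discr_eq_det_embeddingsMatrixReindex_pow_two` and Hadamard)
`≤ (2^(n^2)) ∏_i max(1, |t_i|)^(2n-2)`, and `∑_i log max(1, |t_i|) = ∑_w mult(w) log max(1, w t) ≤ n * height ![t, 1-t, -1]`
(the finite part of the height is nonnegative, as `|-1|_v = 1`). -/
def S_DISC : Prop := ∀ n : ℕ, 2 ≤ n → ∃ C : ℝ, ∀ (K : Type) [Field K] [NumberField K] (t : K),
  Module.finrank ℚ K = n → IntermediateField.adjoin ℚ {t} = ⊤ → IsIntegral ℤ t →
    Real.log |(NumberField.discr K : ℝ)| ≤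
      (2 * n - 2) * (n * Pool.Agent.W222.UABC.height ![t, 1 - t, -1]) + C

end Pool.Agent.H37EU
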