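import Pool.Agent.H37EU.Low
import Pool.Agent.H37EU.Stm
import Pool.Agent.H88.CP8

/-!
# The uniform abc inequality for the points of small conductor
-/

set_option autoImplicit false

namespace Pool.Agent.H37EU

open NumberField IsDedekindDomain Pool.Agent.W222.UABC Pool.Agent.W301.Lin Pool.Agent.H46QF

/-- the exponents of the numbers of fields -/
theorem viol_three : ∃ e : ℕ → ℝ, e 3 = 1 ∧
    (∀ c : ℝ, 1 / (8 * (Real.log 2) ^ 2) < c →
      ∀ᶠ n : ℕ in Filter.atTop, e n ≤ c * (Real.log n) ^ 2) ∧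
    (∀ n : ℕ, 2 ≤ n → e n ≤ eS n) ∧
    ∀ n : ℕ, 2 ≤ n → ∀ κ c δ : ℝ, 0 < κ → 0 < δ →
      ∃ M : ℝ, ∀ B : ℝ, 1 ≤ B → (Viol n κ c B).Finite ∧
        ((Viol n κ c B).ncard : ℝ) ≤ M * B ^ ((n : ℝ) * e n / κ + δ) := by
  obtain ⟨e, h1, h2, h3⟩ := viol_all
  refine ⟨fun n => if n = 3 then 1 else e n, by simp, fun c hc => ?_, fun n hn => ?_,
    fun n hn κ c δ hκ hδ => ?_⟩
  · filter_upwards [h1 c hc, Filter.eventually_gt_atTop 3] with n hn hn3
    rw [if_neg (by omega)]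
    exact hn
  · show (if n = 3 then 1 else e n) ≤ eS n
    by_cases h : n = 3
    · rw [if_pos h, h]
      exact one_le_eS (by norm_num)
    · rw [if_neg h]
      exact h2 n hn
  · by_cases h : n = 3
    · subst h
      simp only [if_true]
      have hε : 0 < δ * κ / 6 := by positivity
      obtain ⟨C, hC, hF⟩ := H88.CP.davenport hε
      obtain ⟨M, hM⟩ := viol_card 3 (by norm_num) (1 + δ * κ / 6) (by linarith) C hC hF κ c (δ / 2) hκ
        (by positivity)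
      refine ⟨M, fun B hB => ?_⟩
      obtain ⟨k1, k2⟩ := hM B hB
      refine ⟨k1, k2.trans (le_of_eq ?_)⟩
      congr 2
      push_cast
      field_simp
      ring
    · simp only [if_neg h]
      exact h3 n hn κ c δ hκ hδ

/-- the numbers of degree `n` with bounded height and conductor -/
def PtsG (n : ℕ) (T W : ℝ) : Set (AlgebraicClosure ℚ) := {x | InGen n T W x}

/-- the violations -/
def ViolG (n : ℕ) (κ c T W : ℝ) : Set (AlgebraicClosure ℚ) :=
  {x | ∃ (K : IntermediateField ℚ (AlgebraicClosure ℚ)) (_ : NumberField K) (t : K),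
    (t : AlgebraicClosure ℚ) = x ∧ Module.finrank ℚ K = n ∧ t ∈ GenK K T W ∧
      c + κ * (W222.UABC.rootDisc K + W222.UABC.conductor ![t, 1 - t, -1]) <
        W222.UABC.height ![t, 1 - t, -1]}

theorem violG_subset (n : ℕ) (κ c T W : ℝ) : ViolG n κ c T W ⊆ PtsG n T W := by
  rintro x ⟨K, hn, t, h1, h2, h3, h4⟩
  exact ⟨K, hn, t, h1, h2, h3⟩

theorem violG_le {n : ℕ} (hn : 2 ≤ n) (κ c : ℝ) {B : ℝ} (W : ℝ) (hfin : (Viol n κ c B).Finite) :
    ((ViolG n κ c (Real.log B) W).ncard : ℝ) ≤ ((Viol n κ c B).ncard : ℝ) := by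
  have hsub : ViolG n κ c (Real.log B) W ⊆ Prod.snd '' (Viol n κ c B) := by
    rintro x ⟨K, hnf, t, h1, h2, h3, h4⟩
    refine ⟨(K, x), ⟨hnf, t, h1, h2, ?_, ?_, h3.2.1, h4⟩, rfl⟩
    · intro h
      apply gen_irr (by omega) h3.1 0
      rw [h, map_zero]
    · intro h
      apply gen_irr (by omega) h3.1 1
      rw [h, map_one]
  have h1 := Set.ncard_le_ncard hsub (hfin.image _)
  have h2 := Set.ncard_image_le (f := Prod.snd) hfin
  exact_mod_cast h1.trans h2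

theorem pow_conv {n : ℕ} (hn : 2 ≤ n) {B θ : ℝ} (hB : 0 < B) :
    (B ^ θ) ^ n * B ^ (n * (n - 2)) = B ^ ((n : ℝ) * (n - 2 + θ)) := by
  rw [← Real.rpow_natCast (B ^ θ) n, ← Real.rpow_mul hB.le, ← Real.rpow_natCast B (n * (n - 2)),
    ← Real.rpow_add hB]
  congr 1
  push_cast [Nat.cast_sub hn]
  ring

theorem few_viol {n : ℕ} (hn : 2 ≤ n) {e : ℝ}
    (hV : ∀ κ c δ : ℝ, 0 < κ → 0 < δ →
      ∃ M : ℝ, ∀ B : ℝ, 1 ≤ B → (Viol n κ c B).Finite ∧
        ((Viol n κ c B).ncard : ℝ) ≤ M * B ^ ((n : ℝ) * e / κ + δ))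
    {θ κ : ℝ} (c : ℝ) (hθ0 : 0 ≤ θ) (hθ2 : θ ≤ 2) (hs : 0 < (n : ℝ) - 2 + θ) (hκ0 : 0 < κ)
    (hκ : e / ((n : ℝ) - 2 + θ) < κ) :
    ∃ ν M B0 : ℝ, 0 < ν ∧ ∀ B R : ℝ, B0 ≤ B → B ^ θ ≤ R →
      ((ViolG n κ c (Real.log B) (Real.log R)).ncard : ℝ) ≤
        M * B ^ (-ν) * ((PtsG n (Real.log B) (Real.log R)).ncard : ℝ) := by
  obtain ⟨s, hs'⟩ : ∃ s : ℝ, s = (n : ℝ) - 2 + θ := ⟨_, rfl⟩
  rw [← hs'] at hs hκ
  have hn0 : (0 : ℝ) < n := by exact_mod_cast (by omega : 0 < n)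
  have h1 : e / κ < s := by
    rw [div_lt_iff₀ hs] at hκ
    rw [div_lt_iff₀ hκ0]
    linarith
  obtain ⟨δ, hδ⟩ : ∃ δ : ℝ, δ = n * (s - e / κ) / 2 := ⟨_, rfl⟩
  have hδ0 : 0 < δ := by
    rw [hδ]
    have : 0 < s - e / κ := by linarith
    positivity
  obtain ⟨M, hM⟩ := hV κ c δ hκ0 hδ0
  obtain ⟨c1, B0, hc1, hB0, hlow⟩ := low_many n hn
  refine ⟨δ, |M| / c1, B0, hδ0, fun B R hB hR => ?_⟩
  have hB1 : 1 ≤ B := hB0.trans hB
  have hBp : 0 < B := by linarith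
  obtain ⟨k1, k2⟩ := hM B hB1
  have hR1 : 1 ≤ B ^ θ := Real.one_le_rpow hB1 hθ0
  have hR2 : B ^ θ ≤ B ^ 2 := by
    have := Real.rpow_le_rpow_of_exponent_le hB1 hθ2
    rwa [show (2 : ℝ) = ((2 : ℕ) : ℝ) by norm_num, Real.rpow_natCast] at this
  obtain ⟨E, hE1, hE2⟩ := hlow B (B ^ θ) hB hR1 hR2
  have hfinP : (PtsG n (Real.log B) (Real.log R)).Finite := inGen_finite n hn _ _
  have hEP : (E.card : ℝ) ≤ ((PtsG n (Real.log B) (Real.log R)).ncard : ℝ) := by
    rw [← Set.ncard_coe_finset E]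
    have hsub : (E : Set (AlgebraicClosure ℚ)) ⊆ PtsG n (Real.log B) (Real.log R) := by
      intro x hx
      obtain ⟨K, hnf, t, h2, h3, h4, -⟩ := hE2 x (Finset.mem_coe.1 hx)
      exact ⟨K, hnf, t, h2, h3, h4.1, h4.2.1, h4.2.2.trans (Real.log_le_log (by linarith) hR)⟩
    exact_mod_cast Set.ncard_le_ncard hsub hfinP
  rw [pow_conv hn hBp, ← hs'] at hE1
  have e1 : (n : ℝ) * e / κ + δ = -δ + n * s := by
    rw [hδ]
    ring
  rw [e1, Real.rpow_add hBp] at k2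
  have hb1 : 0 ≤ B ^ (-δ) := (Real.rpow_pos_of_pos hBp _).le
  have hb2 : 0 ≤ B ^ ((n : ℝ) * s) := (Real.rpow_pos_of_pos hBp _).le
  calc ((ViolG n κ c (Real.log B) (Real.log R)).ncard : ℝ)
      ≤ ((Viol n κ c B).ncard : ℝ) := violG_le hn κ c _ k1
    _ ≤ M * (B ^ (-δ) * B ^ ((n : ℝ) * s)) := k2
    _ ≤ |M| * (B ^ (-δ) * B ^ ((n : ℝ) * s)) :=
        mul_le_mul_of_nonneg_right (le_abs_self M) (by positivity)
    _ = |M| / c1 * B ^ (-δ) * (c1 * B ^ ((n : ℝ) * s)) := by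
        field_simp
    _ ≤ |M| / c1 * B ^ (-δ) * ((PtsG n (Real.log B) (Real.log R)).ncard : ℝ) :=
        mul_le_mul_of_nonneg_left (hE1.trans hEP) (by positivity)

theorem count_two {n : ℕ} (hn : 2 ≤ n) {ε : ℝ} (hε : 0 < ε) :
    ∃ c C B0 : ℝ, 0 < c ∧ 1 ≤ B0 ∧ ∀ B R : ℝ, B0 ≤ B → 1 ≤ R → R ≤ B ^ 2 →
      (PtsG n (Real.log B) (Real.log R)).Finite ∧
      c * (R ^ n * B ^ (n * (n - 2))) ≤ ((PtsG n (Real.log B) (Real.log R)).ncard : ℝ) ∧
      ((PtsG n (Real.log B) (Real.log R)).ncard : ℝ) ≤ C * (R ^ n * B ^ (n * (n - 2))) * B ^ ε := by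
  obtain ⟨c1, B0, hc1, hB0, hlow⟩ := low_many n hn
  obtain ⟨C, hC, hup⟩ := gen_card n hn (θ := 3 / 4) (by norm_num)
  obtain ⟨K0, hK0⟩ := growth (A := C) (b := ε) (γ := 3 / 4) hC.le hε (by norm_num) (by norm_num)
  refine ⟨c1, Real.exp (ε + K0), B0, hc1, hB0, fun B R hB hR hR2 => ?_⟩
  have hB1 : 1 ≤ B := hB0.trans hB
  have hBp : 0 < B := by linarith
  have hRp : 0 < R := by linarith
  have hfinP : (PtsG n (Real.log B) (Real.log R)).Finite := inGen_finite n hn _ _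
  obtain ⟨E, hE1, hE2⟩ := hlow B R hB hR hR2
  refine ⟨hfinP, ?_, ?_⟩
  · refine hE1.trans ?_
    rw [← Set.ncard_coe_finset E]
    have hsub : (E : Set (AlgebraicClosure ℚ)) ⊆ PtsG n (Real.log B) (Real.log R) := by
      intro x hx
      obtain ⟨K, hnf, t, h2, h3, h4, -⟩ := hE2 x (Finset.mem_coe.1 hx)
      exact ⟨K, hnf, t, h2, h3, h4⟩
    exact_mod_cast Set.ncard_le_ncard hsub hfinP
  · have hT0 : 0 ≤ Real.log B := Real.log_nonneg hB1
    have h1 := hup (Real.log B) (Real.log R) hfinP.toFinset hT0 (fun x hx => by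
      rw [Set.Finite.mem_toFinset] at hx
      exact hx)
    rw [← Set.ncard_eq_toFinset_card _ hfinP] at h1
    refine h1.trans ?_
    have h2 := hK0 (Real.log B + 1) (by linarith)
    have e1 : R ^ n = Real.exp (n * Real.log R) := by
      rw [mul_comm, Real.exp_mul, Real.exp_log hRp, Real.rpow_natCast]
    have e2 : B ^ (n * (n - 2)) = Real.exp ((n : ℝ) * (n - 2) * Real.log B) := by
      rw [← Real.rpow_natCast, Real.rpow_def_of_pos hBp]
      congr 1
      push_cast [Nat.cast_sub hn]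
      ring
    have e3 : B ^ ε = Real.exp (ε * Real.log B) := by
      rw [mul_comm, Real.exp_mul, Real.exp_log hBp]
    rw [e1, e2, e3, ← Real.exp_add, ← Real.exp_add, ← Real.exp_add]
    apply Real.exp_le_exp.2
    linarith

/-- the fields of degree `n` generated by a number of conductor one -/
def ExcF (n : ℕ) (X : ℝ) : Set (IntermediateField ℚ (AlgebraicClosure ℚ)) :=
  {K | ∃ _ : NumberField K, Module.finrank ℚ K = n ∧ |(discr K : ℝ)| ≤ X ∧
    ∃ t : K, IntermediateField.adjoin ℚ {t} = ⊤ ∧ IsIntegral ℤ t ∧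
      W222.UABC.conductor ![t, 1 - t, -1] = 0}

theorem excF_finite {n : ℕ} (hn : 2 ≤ n) (X : ℝ) : (ExcF n X).Finite := by
  obtain ⟨C, hC, hF⟩ := schmidt hn
  refine (hF (max X 1) (le_max_right _ _)).1.subset ?_
  rintro K ⟨hnf, h1, h2, -⟩
  refine ⟨h1, hnf, ?_⟩
  push_cast
  exact h2.trans (le_max_left _ _)

theorem fields_low (hD : S_DISC) {n : ℕ} (hn : 2 ≤ n) {ε : ℝ} (hε : 0 < ε) :
    ∃ c X0 : ℝ, 0 < c ∧ ∀ X : ℝ, X0 ≤ X →
      c * X ^ (((n : ℝ) - 2) / (2 * n - 2) - ε) ≤ ((ExcF n X).ncard : ℝ) := by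
  classical
  obtain ⟨C, hC⟩ := hD n hn
  obtain ⟨c1, B0, hc1, hB0, hlow⟩ := low_many n hn
  have hn2 : (2 : ℝ) ≤ n := by exact_mod_cast hn
  have ha0 : (0 : ℝ) < 2 * n - 2 := by linarith
  have hn0 : (0 : ℝ) < n := by linarith
  obtain ⟨ε', hε'⟩ : ∃ ε' : ℝ, ε' = (2 * n - 2) * ε := ⟨_, rfl⟩
  have hε'0 : 0 < ε' := by rw [hε']; positivity
  obtain ⟨D, hDp, hfield⟩ := viol_field n hε'0
  obtain ⟨a, ha⟩ : ∃ a : ℝ, a = n * (2 * n - 2) := ⟨_, rfl⟩
  have hap : 0 < a := by rw [ha]; positivity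
  obtain ⟨β, hβ⟩ : ∃ β : ℝ, β = ((n : ℝ) - 2) / (2 * n - 2) - ε := ⟨_, rfl⟩
  refine ⟨c1 / D * Real.exp (-(C * β)), Real.exp (a * Real.log B0 + C), by positivity, fun X hX => ?_⟩
  have hXp : 0 < X := lt_of_lt_of_le (Real.exp_pos _) hX
  have hlX : a * Real.log B0 + C ≤ Real.log X := by
    rw [Real.le_log_iff_exp_le hXp]
    exact hX
  obtain ⟨T, hT⟩ : ∃ T : ℝ, T = (Real.log X - C) / a := ⟨_, rfl⟩
  have haT : a * T = Real.log X - C := by rw [hT]; field_simp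
  have hTB : Real.log B0 ≤ T := by
    rw [hT, le_div_iff₀ hap]
    linarith
  have hT0 : 0 ≤ T := (Real.log_nonneg hB0).trans hTB
  have hB0p : 0 < B0 := by linarith
  have hB : B0 ≤ Real.exp T := by
    rw [← Real.log_le_iff_le_exp hB0p]
    exact hTB
  have hB1 : 1 ≤ Real.exp T := hB0.trans hB
  obtain ⟨E, hE1, hE2⟩ := hlow (Real.exp T) 1 hB le_rfl (one_le_pow₀ hB1)
  rw [Real.log_exp, Real.log_one] at hE2
  have hdat : ∀ x ∈ E, ∃ (K : IntermediateField ℚ (AlgebraicClosure ℚ)) (_ : NumberField K) (t : K),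
      IntermediateField.adjoin ℚ {x} = K ∧ (t : AlgebraicClosure ℚ) = x ∧ Module.finrank ℚ K = n ∧
        IntermediateField.adjoin ℚ {t} = ⊤ ∧ IsIntegral ℤ t ∧
        W222.UABC.height ![t, 1 - t, -1] ≤ T ∧ W222.UABC.conductor ![t, 1 - t, -1] = 0 := by
    intro x hx
    obtain ⟨K, hnf, t, h1, h2, h3, h4⟩ := hE2 x hx
    refine ⟨K, hnf, t, ?_, h1, h2, h3.1, h4, h3.2.1, le_antisymm h3.2.2 (W222.UABC.conductor_nonneg _)⟩
    rw [← h1]
    exact field_eq h3.1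
  obtain ⟨F, hF⟩ : ∃ F : AlgebraicClosure ℚ → IntermediateField ℚ (AlgebraicClosure ℚ),
      F = fun x => IntermediateField.adjoin ℚ {x} := ⟨_, rfl⟩
  have himg : ((E.image F : Finset (IntermediateField ℚ (AlgebraicClosure ℚ))) :
      Set (IntermediateField ℚ (AlgebraicClosure ℚ))) ⊆ ExcF n X := by
    intro K hK
    rw [Finset.mem_coe, Finset.mem_image] at hK
    obtain ⟨x, hx, rfl⟩ := hK
    obtain ⟨K, hnf, t, h0, h1, h2, h3, h4, h5, h6⟩ := hdat x hx
    have hFx : F x = K := by rw [hF]; exact h0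
    rw [hFx]
    refine ⟨hnf, h2, ?_, t, h3, h4, h6⟩
    have h7 := hC K t h2 h3 h4
    have h8 : (2 * (n : ℝ) - 2) * (n * W222.UABC.height ![t, 1 - t, -1]) ≤ a * T := by
      rw [ha]
      have := mul_le_mul_of_nonneg_left h5 (show 0 ≤ (2 * (n : ℝ) - 2) * n by positivity)
      linarith
    have h9 : Real.log |(discr K : ℝ)| ≤ Real.log X := by linarith
    have hd := W222.UABC.one_le_disc (K := K)
    exact (Real.log_le_log_iff (by linarith) hXp).1 h9
  have hfib : ∀ b ∈ E.image F, ((E.filter fun x => F x = b).card : ℝ) ≤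
      D * Real.exp (ε' * (n * T)) := by
    intro b hb
    obtain ⟨x0, hx0, hb0⟩ := Finset.mem_image.1 hb
    obtain ⟨K, hnf, t0, h0, h1, h2, -⟩ := hdat x0 hx0
    have hbK : b = K := by rw [← hb0, hF]; exact h0
    subst hbK
    set S : Finset b := (E.filter fun x => F x = b).subtype (fun x => x ∈ b) with hS
    have hmem : ∀ x ∈ E.filter (fun x => F x = b), x ∈ b := by
      intro x hx
      have h3 := (Finset.mem_filter.1 hx).2
      rw [← h3, hF]
      exact IntermediateField.mem_adjoin_simple_self ℚ x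
    have hcard : S.card = (E.filter fun x => F x = b).card := by
      rw [hS, Finset.card_subtype, Finset.filter_true_of_mem hmem]
    rw [← hcard]
    have h4 := hfield b h2 (n * T) 0 S (by positivity) (by
      intro y hy
      rw [hS, Finset.mem_subtype, Finset.mem_filter] at hy
      obtain ⟨K', hnf', t, k0, k1, k2, k3, k4, k5, k6⟩ := hdat y hy.1
      have hK' : b = K' := by
        rw [← hy.2, hF]
        exact k0
      subst hK'
      have hty : t = y := Subtype.ext k1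
      rw [← hty]
      refine ⟨?_, ?_, mul_le_mul_of_nonneg_left k5 hn0.le, by rw [k6, mul_zero]⟩
      · intro h
        apply gen_irr (by omega) k3 0
        rw [h, map_zero]
      · intro h
        apply gen_irr (by omega) k3 1
        rw [h, map_one])
    refine h4.trans (le_of_eq ?_)
    rw [mul_zero, zero_add]
  have h5 := H88.CP.card_le_real E F _ hfib
  have h6 : ((E.image F).card : ℝ) ≤ ((ExcF n X).ncard : ℝ) := by
    rw [← Set.ncard_coe_finset]
    exact_mod_cast Set.ncard_le_ncard himg (excF_finite hn X)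
  have h7 : c1 * (Real.exp T) ^ (n * (n - 2)) ≤ D * Real.exp (ε' * (n * T)) * ((ExcF n X).ncard : ℝ) := by
    rw [one_pow, one_mul] at hE1
    exact hE1.trans (h5.trans (mul_le_mul_of_nonneg_left h6 (by positivity)))
  rw [← Real.exp_nat_mul] at h7
  have e1 : X ^ β = Real.exp (a * T * β) * Real.exp (C * β) := by
    rw [Real.rpow_def_of_pos hXp, ← Real.exp_add]
    congr 1
    have : Real.log X = a * T + C := by linarith
    rw [this]
    ring
  have e2 : a * β = n * (n - 2) - ε' * n := by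
    rw [ha, hβ, hε']
    have e0 : (n : ℝ) * (2 * n - 2) * (((n : ℝ) - 2) / (2 * n - 2) - ε) =
        n * ((2 * n - 2) * (((n : ℝ) - 2) / (2 * n - 2))) - n * (2 * n - 2) * ε := by ring
    rw [e0, mul_div_cancel₀ _ ha0.ne']
    ring
  have e3 : ((n * (n - 2) : ℕ) : ℝ) = n * (n - 2) := by
    push_cast [Nat.cast_sub hn]
    ring
  rw [← hβ, e1]
  have e4 : Real.exp (a * T * β) = Real.exp (((n * (n - 2) : ℕ) : ℝ) * T) * Real.exp (-(ε' * (n * T))) := by
    rw [← Real.exp_add, e3]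
    congr 1
    have : a * T * β = (a * β) * T := by ring
    rw [this, e2]
    ring
  rw [e4]
  have e5 : c1 / D * Real.exp (-(C * β)) * (Real.exp (((n * (n - 2) : ℕ) : ℝ) * T) *
      Real.exp (-(ε' * (n * T))) * Real.exp (C * β)) =
      (c1 * Real.exp (((n * (n - 2) : ℕ) : ℝ) * T)) * Real.exp (-(ε' * (n * T))) / D := by
    have hexp : Real.exp (-(C * β)) * Real.exp (C * β) = 1 := by
      rw [← Real.exp_add, neg_add_cancel, Real.exp_zero]
    calc _ = (c1 * Real.exp (((n * (n - 2) : ℕ) : ℝ) * T)) * Real.exp (-(ε' * (n * T))) / D *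
        (Real.exp (-(C * β)) * Real.exp (C * β)) := by ring
      _ = _ := by rw [hexp, mul_one]
  rw [e5, div_le_iff₀ hDp]
  calc c1 * Real.exp (((n * (n - 2) : ℕ) : ℝ) * T) * Real.exp (-(ε' * (n * T)))
      ≤ D * Real.exp (ε' * (n * T)) * ((ExcF n X).ncard : ℝ) * Real.exp (-(ε' * (n * T))) :=
        mul_le_mul_of_nonneg_right h7 (Real.exp_pos _).le
    _ = _ := by
        rw [Real.exp_neg]
        field_simp

end Pool.Agent.H37EU
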