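import Pool.Agent.H37EU.Stm
import Pool.Agent.W222.UABC.Units

set_option autoImplicit false

/-!
# The conductor of `(t, 1 - t, -1)` is zero exactly for the exceptional units
-/

namespace Pool.Agent.H37EU

open NumberField IsDedekindDomain Pool.Agent.H691R3 Pool.Agent.W222.UABC
open HeightOneSpectrum

theorem fv_le_of_int {K : Type} [Field K] [NumberField K] {x : K} (h : IsIntegral ℤ x)
    (v : HeightOneSpectrum (𝓞 K)) : fv v x ≤ 1 :=
  FinitePlace.norm_le_one (K := K) (v := v) (⟨x, h⟩ : 𝓞 K)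

theorem int_of_fv_le {K : Type} [Field K] [NumberField K] {x : K}
    (h : ∀ v : HeightOneSpectrum (𝓞 K), fv v x ≤ 1) : IsIntegral ℤ x := by
  obtain ⟨a, rfl⟩ := exists_int_of_fv_le h
  exact a.isIntegral_coe

theorem conductor_zero_iff {K : Type} [Field K] [NumberField K] {t : K} (h0 : t ≠ 0) (h1 : t ≠ 1) :
    Pool.Agent.W222.UABC.conductor ![t, 1 - t, -1] = 0 ↔
      ∀ v : HeightOneSpectrum (𝓞 K), fv v t = 1 ∧ fv v (1 - t) = 1 := by
  have hn : (Module.finrank ℚ K : ℝ) ≠ 0 := by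
    exact_mod_cast (Module.finrank_pos (R := ℚ) (M := K)).ne'
  have h1' : (1 : K) - t ≠ 0 := fun h => h1 (sub_eq_zero.1 h).symm
  have hm : ∀ v : HeightOneSpectrum (𝓞 K), fv v (-1 : K) = 1 := fun v => by
    rw [map_neg_eq_map, map_one]
  have hA : ∀ v : HeightOneSpectrum (𝓞 K),
      (FinitePlace.mk v ((![t, 1 - t, -1] : Fin 3 → K) 0) =
          FinitePlace.mk v ((![t, 1 - t, -1] : Fin 3 → K) 1) ∧
        FinitePlace.mk v ((![t, 1 - t, -1] : Fin 3 → K) 1) =
          FinitePlace.mk v ((![t, 1 - t, -1] : Fin 3 → K) 2)) ↔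
      fv v t = 1 ∧ fv v (1 - t) = 1 := by
    intro v
    show (fv v t = fv v (1 - t) ∧ fv v (1 - t) = fv v (-1 : K)) ↔ _
    rw [hm v]
    constructor
    · rintro ⟨a, b⟩
      exact ⟨a.trans b, b⟩
    · rintro ⟨a, b⟩
      exact ⟨a.trans b.symm, b⟩
  unfold Pool.Agent.W222.UABC.conductor
  rw [div_eq_zero_iff, or_iff_left hn]
  simp only [hA]
  set f : HeightOneSpectrum (𝓞 K) → ℝ := fun v =>
    ∑ᶠ (_ : ¬ (fv v t = 1 ∧ fv v (1 - t) = 1)), Real.log (Ideal.absNorm v.asIdeal : ℝ) with hf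
  have hf1 : ∀ v, ¬ (fv v t = 1 ∧ fv v (1 - t) = 1) → f v = Real.log (Ideal.absNorm v.asIdeal : ℝ) :=
    fun v hv => finsum_eq_if.trans (if_pos hv)
  have hf2 : ∀ v, (fv v t = 1 ∧ fv v (1 - t) = 1) → f v = 0 :=
    fun v hv => finsum_eq_if.trans (if_neg (not_not.2 hv))
  constructor
  · intro hsum
    have hfin : (Function.support f).Finite := by
      refine ((fv_support_finite h0).union (fv_support_finite h1')).subset ?_
      intro v hv
      by_contra hcon
      rw [Set.mem_union, not_or] at hcon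
      apply hv
      apply hf2
      exact ⟨not_not.1 hcon.1, not_not.1 hcon.2⟩
    rw [finsum_eq_sum_of_support_subset f (s := hfin.toFinset) (by simp)] at hsum
    have hnn : ∀ v ∈ hfin.toFinset, 0 ≤ f v := fun v _ =>
      finsum_nonneg fun _ => Real.log_natCast_nonneg _
    rw [Finset.sum_eq_zero_iff_of_nonneg hnn] at hsum
    intro v
    by_contra hv
    have hpos : 0 < f v := by
      rw [hf1 v hv]
      exact Real.log_pos (by exact_mod_cast one_lt_absNorm v)
    exact hpos.ne' (hsum v (hfin.mem_toFinset.2 hpos.ne'))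
  · intro h
    rw [show f = fun _ => 0 from funext fun v => hf2 v (h v)]
    exact finsum_zero

theorem t_ONE {K : Type} [Field K] [NumberField K] {t : K} (h0 : t ≠ 0) (h1 : t ≠ 1) :
    Pool.Agent.W222.UABC.conductor ![t, 1 - t, -1] = 0 ↔
      (IsIntegral ℤ t ∧ IsIntegral ℤ t⁻¹ ∧ IsIntegral ℤ (1 - t)⁻¹) := by
  rw [conductor_zero_iff h0 h1]
  have h1' : (1 : K) - t ≠ 0 := fun h => h1 (sub_eq_zero.1 h).symm
  constructor
  · intro h
    refine ⟨int_of_fv_le fun v => (h v).1.le, int_of_fv_le fun v => ?_, int_of_fv_le fun v => ?_⟩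
    · rw [map_inv₀, (h v).1, inv_one]
    · rw [map_inv₀, (h v).2, inv_one]
  · rintro ⟨a, b, c⟩ v
    have a1 := fv_le_of_int a v
    have b1 := fv_le_of_int b v
    have c1 := fv_le_of_int c v
    have d1 : fv v (1 - t) ≤ 1 := fv_le_of_int (isIntegral_one.sub a) v
    rw [map_inv₀] at b1 c1
    have p0 : 0 < fv v t := (fv v).pos h0
    have p1 : 0 < fv v (1 - t) := (fv v).pos h1'
    exact ⟨le_antisymm a1 ((inv_le_one₀ p0).1 b1), le_antisymm d1 ((inv_le_one₀ p1).1 c1)⟩

end Pool.Agent.H37EU
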