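import Mathlib

/-!
# Irreducible monic integral polynomials with prescribed odd values at `0` and `1`
-/

set_option autoImplicit false

namespace Pool.Agent.H37EU

open Polynomial

/-- there are irreducible polynomials of every degree over the field of two elements -/
theorem exists_irr (n : ℕ) (hn : n ≠ 0) :
    ∃ g : (ZMod 2)[X], g.Monic ∧ Irreducible g ∧ g.natDegree = n := by
  haveI : Fact (Nat.Prime 2) := ⟨Nat.prime_two⟩
  obtain ⟨α, hα⟩ := Field.exists_primitive_element (ZMod 2) (GaloisField 2 n)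
  have hint : IsIntegral (ZMod 2) α := Algebra.IsIntegral.isIntegral α
  refine ⟨minpoly (ZMod 2) α, minpoly.monic hint, minpoly.irreducible hint, ?_⟩
  rw [← IntermediateField.adjoin.finrank hint, hα, IntermediateField.finrank_top',
    GaloisField.finrank 2 hn]

theorem two_zero : (2 : ZMod 2) = 0 := by decide

theorem exists_lift (n : ℕ) (hn : 2 ≤ n) : ∃ h : ℤ[X], h.Monic ∧ h.natDegree = n ∧
    Irreducible (h.map (Int.castRingHom (ZMod 2))) ∧ Odd (h.eval 0) ∧ Odd (h.eval 1) := by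
  haveI : Fact (Nat.Prime 2) := ⟨Nat.prime_two⟩
  obtain ⟨g, hg, hirr, hdeg⟩ := exists_irr n (by omega)
  have hl : g ∈ lifts (Int.castRingHom (ZMod 2)) := by
    rw [lifts_iff_coeff_lifts]
    intro k
    obtain ⟨a, ha⟩ := ZMod.intCast_surjective (g.coeff k)
    exact ⟨a, by simpa using ha⟩
  obtain ⟨h, hh, hd, hm⟩ := lifts_and_natDegree_eq_and_monic hl hg
  have hodd : ∀ a : ℤ, Odd (h.eval a) := by
    intro a
    rw [← Int.not_even_iff_odd]
    intro hev
    have h1 : ((h.eval a : ℤ) : ZMod 2) = 0 := by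
      obtain ⟨c, hc⟩ := hev
      rw [hc]
      push_cast
      linear_combination (c : ZMod 2) * two_zero
    have h2 : IsRoot g (a : ZMod 2) := by
      rw [IsRoot.def, ← hh, eval_map, eval₂_at_intCast]
      simpa using h1
    have h3 := degree_eq_one_of_irreducible_of_root hirr h2
    have h4 : g.natDegree = 1 := natDegree_eq_of_degree_eq_some (by rw [h3]; rfl)
    omega
  exact ⟨h, hm, by rw [hd, hdeg], by rw [hh]; exact hirr, hodd 0, hodd 1⟩

/-- the member of the family -/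
noncomputable def fam (n : ℕ) (h : ℤ[X]) (b d : ℤ) (g : Fin (n - 2) → ℤ) : ℤ[X] :=
  h + (C (b - h.eval 0) + C (d - h.eval 1 - (b - h.eval 0)) * X +
    ∑ i : Fin (n - 2), C (2 * g i) * (X ^ ((i : ℕ) + 2) - X))

section

variable {n : ℕ} (hn : 2 ≤ n) {h : ℤ[X]} (hm : h.Monic) (hd : h.natDegree = n)
  (hirr : Irreducible (h.map (Int.castRingHom (ZMod 2)))) (h0 : Odd (h.eval 0))
  (h1 : Odd (h.eval 1))

theorem coeff_fam (b d : ℤ) (g : Fin (n - 2) → ℤ) (k : ℕ) :
    (fam n h b d g).coeff k = h.coeff k + ((if k = 0 then b - h.eval 0 else 0) +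
      (if k = 1 then d - h.eval 1 - (b - h.eval 0) else 0) +
      ∑ i : Fin (n - 2), 2 * g i * ((if k = (i : ℕ) + 2 then 1 else 0) - if k = 1 then 1 else 0)) := by
  unfold fam
  rw [coeff_add, coeff_add, coeff_add, finsetSum_coeff]
  congr 2
  · congr 1
    · rw [coeff_C]
    · rw [coeff_C_mul, coeff_X]
      simp only [eq_comm (a := 1) (b := k)]
      split_ifs <;> simp
  · refine Finset.sum_congr rfl fun i _ => ?_
    rw [coeff_C_mul, coeff_sub, coeff_X_pow, coeff_X]
    simp only [eq_comm (a := 1) (b := k)]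

include hn hd in
theorem coeff_ge (b d : ℤ) (g : Fin (n - 2) → ℤ) {k : ℕ} (hk : n ≤ k) :
    (fam n h b d g).coeff k = h.coeff k := by
  rw [coeff_fam, if_neg (by omega), if_neg (by omega), Finset.sum_eq_zero]
  · ring
  · intro i _
    have := i.2
    rw [if_neg (by omega), if_neg (by omega)]
    ring

include hn hm hd in
theorem fam_natDegree (b d : ℤ) (g : Fin (n - 2) → ℤ) : (fam n h b d g).natDegree = n := by
  apply natDegree_eq_of_le_of_coeff_ne_zero
  · rw [natDegree_le_iff_coeff_eq_zero]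
    intro k hk
    rw [coeff_ge hn hd b d g hk.le]
    exact coeff_eq_zero_of_natDegree_lt (by omega)
  · rw [coeff_ge hn hd b d g le_rfl]
    have : h.coeff n = 1 := by rw [← hd]; exact hm
    rw [this]
    exact one_ne_zero

include hn hm hd in
theorem fam_monic (b d : ℤ) (g : Fin (n - 2) → ℤ) : (fam n h b d g).Monic := by
  unfold Monic leadingCoeff
  rw [fam_natDegree hn hm hd, coeff_ge hn hd b d g le_rfl, ← hd]
  exact hm

include h0 h1 in
theorem fam_map {b d : ℤ} (hb : Odd b) (hd' : Odd d) (g : Fin (n - 2) → ℤ) :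
    (fam n h b d g).map (Int.castRingHom (ZMod 2)) = h.map (Int.castRingHom (ZMod 2)) := by
  have h2 := two_zero
  ext k
  rw [coeff_map, coeff_map, coeff_fam]
  obtain ⟨u, hu⟩ := h0
  obtain ⟨v, hv⟩ := h1
  obtain ⟨s, hs⟩ := hb
  obtain ⟨t, ht⟩ := hd'
  have e1 : b - h.eval 0 = 2 * (s - u) := by rw [hu, hs]; ring
  have e2 : d - h.eval 1 - (b - h.eval 0) = 2 * (t - v - (s - u)) := by rw [hu, hv, hs, ht]; ring
  have e3 : ∑ i : Fin (n - 2), 2 * g i * ((if k = (i : ℕ) + 2 then 1 else 0) - if k = 1 then 1 else 0)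
      = 2 * ∑ i : Fin (n - 2), g i * ((if k = (i : ℕ) + 2 then (1 : ℤ) else 0) - if k = 1 then 1 else 0) := by
    rw [Finset.mul_sum]
    exact Finset.sum_congr rfl fun i _ => by ring
  obtain ⟨w, hw⟩ : ∃ w : ℤ, ((if k = 0 then b - h.eval 0 else 0) +
      (if k = 1 then d - h.eval 1 - (b - h.eval 0) else 0) +
      ∑ i : Fin (n - 2), 2 * g i * ((if k = (i : ℕ) + 2 then 1 else 0) - if k = 1 then 1 else 0)) =
        2 * w := by
    rw [e3, e2, e1]
    refine ⟨(if k = 0 then (s - u) else 0) + (if k = 1 then (t - v - (s - u)) else 0) +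
      ∑ i : Fin (n - 2), g i * ((if k = (i : ℕ) + 2 then (1 : ℤ) else 0) - if k = 1 then 1 else 0), ?_⟩
    split_ifs <;> ring
  rw [hw]
  simp only [eq_intCast, Int.cast_add, Int.cast_mul, Int.cast_ofNat]
  rw [h2]
  ring

include hn hm hd hirr h0 h1 in
theorem fam_irr {b d : ℤ} (hb : Odd b) (hd' : Odd d) (g : Fin (n - 2) → ℤ) :
    Irreducible (fam n h b d g) := by
  apply (fam_monic hn hm hd b d g).irreducible_of_irreducible_map (Int.castRingHom (ZMod 2))
  rw [fam_map h0 h1 hb hd' g]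
  exact hirr

theorem fam_eval_zero (b d : ℤ) (g : Fin (n - 2) → ℤ) : (fam n h b d g).eval 0 = b := by
  unfold fam
  rw [eval_add, eval_add, eval_add, eval_finsetSum, Finset.sum_eq_zero]
  · simp
  · intro i _
    simp

theorem fam_eval_one (b d : ℤ) (g : Fin (n - 2) → ℤ) : (fam n h b d g).eval 1 = d := by
  unfold fam
  rw [eval_add, eval_add, eval_add, eval_finsetSum, Finset.sum_eq_zero]
  · simp
  · intro i _
    simp

theorem fam_inj {b d b' d' : ℤ} {g g' : Fin (n - 2) → ℤ} (he : fam n h b d g = fam n h b' d' g') :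
    b = b' ∧ d = d' ∧ g = g' := by
  have hb : b = b' := by rw [← fam_eval_zero (n := n) (h := h) b d g, he, fam_eval_zero]
  have hd' : d = d' := by rw [← fam_eval_one (n := n) (h := h) b d g, he, fam_eval_one]
  refine ⟨hb, hd', funext fun i => ?_⟩
  have h3 := congrArg (fun p : ℤ[X] => p.coeff ((i : ℕ) + 2)) he
  simp only [coeff_fam] at h3
  have key : ∀ g : Fin (n - 2) → ℤ, ∑ j : Fin (n - 2), 2 * g j *
      ((if (i : ℕ) + 2 = (j : ℕ) + 2 then 1 else 0) - if (i : ℕ) + 2 = 1 then 1 else 0) = 2 * g i := by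
    intro g
    rw [Finset.sum_eq_single i]
    · simp
    · intro j _ hj
      rw [if_neg (by intro h; apply hj; ext; omega), if_neg (by omega)]
      ring
    · intro h; exact absurd (Finset.mem_univ _) h
  rw [key, key] at h3
  simp only [Nat.add_eq_zero_iff, OfNat.ofNat_ne_zero, and_false, if_false] at h3
  have h4 : ¬ ((i : ℕ) + 2 = 1) := by omega
  simp only [h4, if_false] at h3
  omega

/-- the bound for the coefficients -/
theorem fam_coeff_le (A G : ℝ) (hG : 0 ≤ G) {b d : ℤ} (hb : |(b : ℝ)| ≤ A) (hd' : |(d : ℝ)| ≤ A)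
    {g : Fin (n - 2) → ℤ} (hg : ∀ i, |(g i : ℝ)| ≤ G) (k : ℕ) :
    |((fam n h b d g).coeff k : ℝ)| ≤
      |(h.coeff k : ℝ)| + 2 * |((h.eval 0 : ℤ) : ℝ)| + |((h.eval 1 : ℤ) : ℝ)| + 3 * A + 2 * n * G := by
  rw [coeff_fam]
  have hA : 0 ≤ A := (abs_nonneg _).trans hb
  have hsum : |((∑ i : Fin (n - 2), 2 * g i *
      ((if k = (i : ℕ) + 2 then 1 else 0) - if k = 1 then 1 else 0) : ℤ) : ℝ)| ≤ 2 * n * G := by
    push_cast
    refine (Finset.abs_sum_le_sum_abs _ _).trans ?_
    refine (Finset.sum_le_card_nsmul _ _ (2 * G) fun i _ => ?_).trans ?_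
    · rw [abs_mul, abs_mul, abs_two]
      have e1 : |((if k = (i : ℕ) + 2 then (1 : ℝ) else 0) - if k = 1 then (1 : ℝ) else 0)| ≤ 1 := by
        split_ifs <;> norm_num
      have e2 := hg i
      have e3 : 0 ≤ |(g i : ℝ)| := abs_nonneg _
      calc 2 * |(g i : ℝ)| * |((if k = (i : ℕ) + 2 then (1 : ℝ) else 0) - if k = 1 then (1 : ℝ) else 0)|
          ≤ 2 * |(g i : ℝ)| * 1 := by gcongr
        _ ≤ 2 * G := by linarith
    · rw [Finset.card_univ, Fintype.card_fin, nsmul_eq_mul]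
      have : ((n - 2 : ℕ) : ℝ) ≤ n := by exact_mod_cast Nat.sub_le _ _
      nlinarith
  have ha0 : |((if k = 0 then b - h.eval 0 else 0 : ℤ) : ℝ)| ≤ A + |((h.eval 0 : ℤ) : ℝ)| := by
    split_ifs
    · push_cast
      exact (abs_sub _ _).trans (by linarith)
    · simp
      positivity
  have ha1 : |((if k = 1 then d - h.eval 1 - (b - h.eval 0) else 0 : ℤ) : ℝ)| ≤
      2 * A + |((h.eval 0 : ℤ) : ℝ)| + |((h.eval 1 : ℤ) : ℝ)| := by
    split_ifs
    · push_cast
      have e1 := abs_sub ((d : ℝ) - ((h.eval 1 : ℤ) : ℝ)) ((b : ℝ) - ((h.eval 0 : ℤ) : ℝ))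
      have e2 := abs_sub (d : ℝ) ((h.eval 1 : ℤ) : ℝ)
      have e3 := abs_sub (b : ℝ) ((h.eval 0 : ℤ) : ℝ)
      linarith
    · simp
      positivity
  rw [Int.cast_add, Int.cast_add, Int.cast_add]
  have t1 := abs_add_le ((h.coeff k : ℤ) : ℝ) ((((if k = 0 then b - h.eval 0 else 0 : ℤ) : ℝ) +
    ((if k = 1 then d - h.eval 1 - (b - h.eval 0) else 0 : ℤ) : ℝ)) +
    ((∑ i : Fin (n - 2), 2 * g i *
      ((if k = (i : ℕ) + 2 then 1 else 0) - if k = 1 then 1 else 0) : ℤ) : ℝ))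
  have t2 := abs_add_le (((if k = 0 then b - h.eval 0 else 0 : ℤ) : ℝ) +
    ((if k = 1 then d - h.eval 1 - (b - h.eval 0) else 0 : ℤ) : ℝ))
    ((∑ i : Fin (n - 2), 2 * g i *
      ((if k = (i : ℕ) + 2 then 1 else 0) - if k = 1 then 1 else 0) : ℤ) : ℝ)
  have t3 := abs_add_le ((if k = 0 then b - h.eval 0 else 0 : ℤ) : ℝ)
    ((if k = 1 then d - h.eval 1 - (b - h.eval 0) else 0 : ℤ) : ℝ)
  linarith

end

end Pool.Agent.H37EU
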