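import Mathlib

/-! The number of the numbers with a monic integral polynomial `f` of degree `n` with `|f(0)| = |f(1)| = 1`
and bounded coefficients. -/

set_option autoImplicit false

namespace Pool.Agent.H37EU

open Polynomial Finset

theorem coeff_inj (n : ℕ) (f g : ℤ[X]) (hf : f.Monic) (hg : g.Monic)
    (hfd : f.natDegree = n) (hgd : g.natDegree = n) (h0 : f.eval 0 = g.eval 0)
    (h1 : f.eval 1 = g.eval 1) (h : ∀ k : Fin (n - 2), f.coeff ((k : ℕ) + 2) = g.coeff ((k : ℕ) + 2))
    (hn : 2 ≤ n) : f = g := by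
  have hne : ∀ i, i ≠ 1 → f.coeff i = g.coeff i := by
    intro i hi
    rcases Nat.lt_or_ge i 2 with h2 | h2
    · have h3 : i = 0 := by omega
      rw [h3, coeff_zero_eq_eval_zero, coeff_zero_eq_eval_zero, h0]
    · rcases lt_trichotomy i n with h3 | h3 | h3
      · have h4 := h ⟨i - 2, by omega⟩
        have h5 : i - 2 + 2 = i := by omega
        simp only [h5] at h4
        exact h4
      · have e1 : f.coeff n = 1 := by
          rw [← hfd]
          exact hf.coeff_natDegree
        have e2 : g.coeff n = 1 := by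
          rw [← hgd]
          exact hg.coeff_natDegree
        rw [h3, e1, e2]
      · rw [coeff_eq_zero_of_natDegree_lt (by omega), coeff_eq_zero_of_natDegree_lt (by omega)]
  have hs : ∑ i ∈ range (n + 1), (f.coeff i - g.coeff i) = 0 := by
    rw [Finset.sum_sub_distrib]
    have e1 := eval_eq_sum_range' (show f.natDegree < n + 1 by omega) (1 : ℤ)
    have e2 := eval_eq_sum_range' (show g.natDegree < n + 1 by omega) (1 : ℤ)
    simp only [one_pow, mul_one] at e1 e2
    rw [← e1, ← e2, h1, sub_self]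
  rw [Finset.sum_eq_single 1 (fun i _ hi => by rw [hne i hi, sub_self])
    (fun hi => absurd (mem_range.2 (by omega)) hi)] at hs
  ext i
  by_cases hi : i = 1
  · rw [hi]
    exact sub_eq_zero.1 hs
  · exact hne i hi

theorem t_UPE (n : ℕ) (hn : 2 ≤ n) : ∃ C : ℝ, 0 < C ∧ ∀ (B : ℝ), 1 ≤ B →
    ∀ E : Finset (AlgebraicClosure ℚ), (∀ x ∈ E, ∃ f : Polynomial ℤ, f.Monic ∧ f.natDegree = n ∧
      Polynomial.aeval x f = 0 ∧ |f.eval 0| = 1 ∧ |f.eval 1| = 1 ∧
      ∀ k, |((f.coeff k : ℤ) : ℝ)| ≤ (4 * B) ^ n) → (E.card : ℝ) ≤ C * B ^ (n * (n - 2)) := by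
  classical
  refine ⟨n * (4 * (3 * 4 ^ n) ^ (n - 2)), by positivity, ?_⟩
  intro B hB E hE
  choose! f hm hd hr h0 h1 hc using hE
  set K : ℤ := ⌊(4 * B) ^ n⌋ with hK
  have hX1 : (1 : ℝ) ≤ (4 * B) ^ n := one_le_pow₀ (by linarith)
  have hK0 : 0 ≤ K := Int.floor_nonneg.2 (by linarith)
  have hKX : (K : ℝ) ≤ (4 * B) ^ n := Int.floor_le _
  let P : Finset ((Fin (n - 2) → ℤ) × ℤ × ℤ) :=
    (Fintype.piFinset fun _ : Fin (n - 2) => Finset.Icc (-K) K) ×ˢ
      (({1, -1} : Finset ℤ) ×ˢ ({1, -1} : Finset ℤ))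
  let Φ : AlgebraicClosure ℚ → (Fin (n - 2) → ℤ) × ℤ × ℤ := fun x =>
    (fun k => (f x).coeff ((k : ℕ) + 2), (f x).eval 0, (f x).eval 1)
  have hmaps : ∀ x ∈ E, Φ x ∈ P := by
    intro x hx
    simp only [P, Φ, Finset.mem_product, Fintype.mem_piFinset, Finset.mem_Icc, Finset.mem_insert,
      Finset.mem_singleton]
    refine ⟨fun k => ?_, ?_, ?_⟩
    · have h := hc x hx ((k : ℕ) + 2)
      rw [abs_le] at h
      have ha : (f x).coeff ((k : ℕ) + 2) ≤ K := Int.le_floor.2 h.2
      have hb : -(f x).coeff ((k : ℕ) + 2) ≤ K := Int.le_floor.2 (by push_cast; linarith)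
      exact ⟨by linarith, ha⟩
    · exact (abs_eq (by norm_num)).1 (h0 x hx)
    · exact (abs_eq (by norm_num)).1 (h1 x hx)
  have hfib : ∀ b ∈ P, (E.filter fun x => Φ x = b).card ≤ n := by
    intro b _
    rcases (E.filter fun x => Φ x = b).eq_empty_or_nonempty with h | ⟨x, hx⟩
    · rw [h]
      simp
    · rw [Finset.mem_filter] at hx
      have hsub : (E.filter fun x => Φ x = b) ⊆ ((f x).aroots (AlgebraicClosure ℚ)).toFinset := by
        intro y hy
        rw [Finset.mem_filter] at hy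
        have e : Φ y = Φ x := hy.2.trans hx.2.symm
        have e' : f y = f x := coeff_inj n _ _ (hm y hy.1) (hm x hx.1) (hd y hy.1) (hd x hx.1)
          (congrArg (fun p => p.2.1) e) (congrArg (fun p => p.2.2) e)
          (fun k => congrFun (congrArg (fun p => p.1) e) k) hn
        rw [Multiset.mem_toFinset, Polynomial.mem_aroots]
        exact ⟨(hm x hx.1).ne_zero, e' ▸ hr y hy.1⟩
      calc (E.filter fun x => Φ x = b).card
          ≤ ((f x).aroots (AlgebraicClosure ℚ)).toFinset.card := Finset.card_le_card hsub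
        _ ≤ Multiset.card ((f x).aroots (AlgebraicClosure ℚ)) := Multiset.toFinset_card_le _
        _ ≤ ((f x).map (algebraMap ℤ (AlgebraicClosure ℚ))).natDegree := Polynomial.card_roots' _
        _ ≤ (f x).natDegree := Polynomial.natDegree_map_le
        _ = n := hd x hx.1
  have hcard := Finset.card_le_mul_card_image_of_maps_to hmaps n hfib
  have hIcc : ((Finset.Icc (-K) K).card : ℝ) ≤ 3 * (4 * B) ^ n := by
    rw [Int.card_Icc]
    have h2 : ((K + 1 - -K).toNat : ℤ) = K + 1 - -K := Int.toNat_of_nonneg (by linarith)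
    have h3 : ((K + 1 - -K).toNat : ℝ) = (K : ℝ) + 1 + K := by
      have h4 : (((K + 1 - -K).toNat : ℤ) : ℝ) = ((K + 1 - -K : ℤ) : ℝ) := by rw [h2]
      push_cast at h4
      rw [← Int.cast_natCast]
      push_cast
      linarith
    rw [h3]
    linarith
  have hP : (P.card : ℝ) ≤ (3 * (4 * B) ^ n) ^ (n - 2) * 4 := by
    simp only [P]
    rw [Finset.card_product, Finset.card_product, Fintype.card_piFinset]
    have h2 : ({1, -1} : Finset ℤ).card = 2 := by decide
    rw [h2, Finset.prod_const, Finset.card_univ, Fintype.card_fin]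
    push_cast
    have h3 := pow_le_pow_left₀ (Nat.cast_nonneg _) hIcc (n - 2)
    nlinarith
  calc (E.card : ℝ) ≤ ((n * P.card : ℕ) : ℝ) := by exact_mod_cast hcard
    _ = n * (P.card : ℝ) := by push_cast; ring
    _ ≤ n * ((3 * (4 * B) ^ n) ^ (n - 2) * 4) := mul_le_mul_of_nonneg_left hP (Nat.cast_nonneg _)
    _ = n * (4 * (3 * 4 ^ n) ^ (n - 2)) * B ^ (n * (n - 2)) := by
        rw [mul_pow 4 B n, ← mul_assoc 3, mul_pow (3 * 4 ^ n) (B ^ n), ← pow_mul B]
        ring

end Pool.Agent.H37EU
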